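import Pool.Agent.TH437.GR.Gen2

/-!
# Upward and downward shifts
-/

set_option autoImplicit false

namespace Pool.Agent.TH437.GR

open Finset Filter

def resD (K a p : ℕ) : ℕ := (K + a) % p

def resU (K a p : ℕ) : ℕ := (p - (K + a) % p) % p

theorem good_D (K : ℕ) : Good (resD K) := by
  refine ⟨fun a p hp => Nat.mod_lt _ hp.pos, fun a b p hp hab => ?_⟩
  unfold resD
  have h := Nat.modEq_iff_dvd' (n := p) (show K + a ≤ K + b by omega)
  have e : K + b - (K + a) = b - a := by omega
  rw [e] at h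
  exact h

theorem neg_mod_inj {p u v : ℕ} (hu : u < p) (hv : v < p) :
    (p - u) % p = (p - v) % p ↔ u = v := by
  constructor
  · intro h
    rcases Nat.eq_zero_or_pos u with hu0 | hu0
    · rcases Nat.eq_zero_or_pos v with hv0 | hv0
      · omega
      · rw [hu0, Nat.sub_zero, Nat.mod_self, Nat.mod_eq_of_lt (by omega)] at h
        omega
    · rcases Nat.eq_zero_or_pos v with hv0 | hv0
      · rw [hv0, Nat.sub_zero, Nat.mod_self, Nat.mod_eq_of_lt (by omega)] at h
        omega
      · rw [Nat.mod_eq_of_lt (by omega), Nat.mod_eq_of_lt (by omega)] at h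
        omega
  · rintro rfl
    rfl

theorem good_U (K : ℕ) : Good (resU K) := by
  refine ⟨fun a p hp => Nat.mod_lt _ hp.pos, fun a b p hp hab => ?_⟩
  unfold resU
  rw [neg_mod_inj (Nat.mod_lt _ hp.pos) (Nat.mod_lt _ hp.pos)]
  have h := Nat.modEq_iff_dvd' (n := p) (show K + a ≤ K + b by omega)
  have e : K + b - (K + a) = b - a := by omega
  rw [e] at h
  exact h

theorem not_dvd_D {K n a p : ℕ} (h : K + a + 2 ≤ n) (hn : n % p ≠ resD K a p) :
    ¬ p ∣ n - (K + a) := by
  intro hd
  exact hn ((Nat.modEq_iff_dvd' (show K + a ≤ n by omega)).2 hd).symm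

theorem not_dvd_U {K n a p : ℕ} (hp : p.Prime) (hn : n % p ≠ resU K a p) :
    ¬ p ∣ n + (K + a) := by
  intro hd
  apply hn
  unfold resU
  have h1 : (n % p + (K + a) % p) % p = 0 := by
    rw [← Nat.add_mod]
    exact Nat.mod_eq_zero_of_dvd hd
  have hu : n % p < p := Nat.mod_lt _ hp.pos
  have hv : (K + a) % p < p := Nat.mod_lt _ hp.pos
  set u := n % p
  set v := (K + a) % p
  have h2 : p ∣ u + v := Nat.dvd_of_mod_eq_zero h1
  rcases Nat.eq_zero_or_pos (u + v) with h3 | h3
  · have hu0 : u = 0 := by omega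
    have hv0 : v = 0 := by omega
    rw [hu0, hv0, Nat.sub_zero, Nat.mod_self]
  · obtain ⟨c, hc⟩ := h2
    have hc1 : c = 1 := by
      rcases c with _ | _ | c
      · omega
      · rfl
      · exfalso
        have : p * (c + 1 + 1) = p * c + 2 * p := by ring
        have : 0 ≤ p * c := Nat.zero_le _
        omega
    subst hc1
    have hv0 : 0 < v := by omega
    rw [Nat.mod_eq_of_lt (by omega)]
    omega

theorem Has_mono {s : ℕ → ℕ → ℕ} {C C' : ℝ} (hC : C ≤ C') {K n : ℕ} (h : Has s C' K n) :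
    Has s C K n := by
  obtain ⟨S, h1, h2⟩ := h
  refine ⟨S, h1, fun k hk => ?_⟩
  obtain ⟨h3, h4, h5, h6, h7⟩ := h2 k hk
  refine ⟨h3, h4, h5, h6, lt_of_le_of_lt (Real.exp_le_exp.2 ?_) h7⟩
  exact mul_le_mul_of_nonneg_right hC (Nat.cast_nonneg _)

open Classical in
theorem mono_density (Pr Pr' : ℕ → Prop) (h : ∀ n, Pr n → Pr' n)
    (hd : Tendsto (fun N : ℕ => (((range N).filter (fun n => ¬ Pr n)).card : ℝ) / N)
      atTop (nhds 0)) :
    Tendsto (fun N : ℕ => (((range N).filter (fun n => ¬ Pr' n)).card : ℝ) / N)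
      atTop (nhds 0) := by
  refine squeeze_zero (fun N => by positivity) (fun N => ?_) hd
  refine div_le_div_of_nonneg_right ?_ (Nat.cast_nonneg _)
  have : ((range N).filter (fun n => ¬ Pr' n)).card ≤ ((range N).filter (fun n => ¬ Pr n)).card := by
    refine card_le_card fun n hn => ?_
    rw [mem_filter] at hn ⊢
    exact ⟨hn.1, fun h1 => hn.2 (h n h1)⟩
  exact_mod_cast this

open Classical in
theorem down (C : ℝ) (K : ℕ) :
    Tendsto (fun N : ℕ => (((range N).filter (fun n => ¬ Has (fun n k => n - k) C K n)).card : ℝ) / N)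
      atTop (nhds 0) := by
  refine mono_density _ _ (fun n => Has_mono (le_max_left C 1)) (gen (fun n k => n - k) (resD K)
    (le_max_right C 1) K (good_D K) ?_ ?_ ?_ ?_)
  · intro n a p _ h hn
    exact not_dvd_D h hn
  · intro n k h
    show 2 ≤ n - k
    omega
  · intro k n m h1 h2 h3
    have h4 : n - k = m - k := h3
    omega
  · intro n k
    show n - k ≤ n + k
    omega

open Classical in
theorem up (C : ℝ) (K : ℕ) :
    Tendsto (fun N : ℕ => (((range N).filter (fun n => ¬ Has (fun n k => n + k) C K n)).card : ℝ) / N)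
      atTop (nhds 0) := by
  refine mono_density _ _ (fun n => Has_mono (le_max_left C 1)) (gen (fun n k => n + k) (resU K)
    (le_max_right C 1) K (good_U K) ?_ ?_ ?_ ?_)
  · intro n a p hp _ hn
    exact not_dvd_U hp hn
  · intro n k h
    show 2 ≤ n + k
    omega
  · intro k n m h1 h2 h3
    have h4 : n + k = m + k := h3
    omega
  · intro n k
    exact le_rfl

end Pool.Agent.TH437.GR
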