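import Pool.Agent.TH437.GR.Upper

/-!
# The normal order
-/

set_option autoImplicit false

namespace Pool.Agent.TH437.GR

open Finset Filter N435e839e

theorem properSum_nonneg (iz : Bool) (n : ℕ) : 0 ≤ properSum iz n := by
  unfold properSum
  positivity

/-- a function between `S_2` and `S` has normal order `e^-γ log log n` -/
theorem normal (iz : Bool) (f : ℕ → ℝ) (h1 : ∀ n, roughSum iz n ≤ f n)
    (h2 : ∀ n, f n ≤ totalSum iz n) {ε : ℝ} (hε : 0 < ε) :
    Tendsto (fun N : ℕ => (((range N).filter
      (fun n : ℕ => ε ≤ |f n / Real.log (Real.log n) -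
        Real.exp (-Real.eulerMascheroniConstant)|)).card : ℝ) / N) atTop (nhds 0) := by
  have hg := gam_pos
  set c := max (gam - ε) (gam / 2) with hc
  have hc0 : 0 < c := lt_of_lt_of_le (by linarith) (le_max_right _ _)
  have hc1 : c < gam := max_lt (by linarith) (by linarith)
  have hlow := lower iz hc0 hc1
  have hup := upper iz (c := gam + ε) (by linarith)
  have hfin : Tendsto (fun N : ℕ => (17 : ℝ) / N) atTop (nhds 0) :=
    tendsto_const_nhds.div_atTop tendsto_natCast_atTop_atTop
  have hsum : Tendsto (fun N : ℕ => (17 : ℝ) / N + ((((range N).filter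
      (fun n => roughSum iz n ≤ c * Real.log (Real.log n))).card : ℝ) / N +
      (((range N).filter
        (fun n : ℕ => (gam + ε) * Real.log (Real.log n) ≤ totalSum iz n)).card : ℝ) / N)) atTop
      (nhds 0) := by
    simpa using hfin.add (hlow.add hup)
  refine squeeze_zero (fun N => by positivity) (fun N => ?_) hsum
  rw [← add_div, ← add_div]
  refine div_le_div_of_nonneg_right ?_ (Nat.cast_nonneg _)
  have hsub : (range N).filter (fun n : ℕ => ε ≤ |f n / Real.log (Real.log n) -
        Real.exp (-Real.eulerMascheroniConstant)|) ⊆
      range 17 ∪ ((range N).filter (fun n => roughSum iz n ≤ c * Real.log (Real.log n)) ∪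
        (range N).filter (fun n : ℕ => (gam + ε) * Real.log (Real.log n) ≤ totalSum iz n)) := by
    intro n hn
    rw [mem_filter] at hn
    rw [mem_union, mem_union, mem_filter, mem_filter, mem_range]
    by_cases h17 : n < 17
    · left; exact h17
    · right
      have hnr : (17 : ℝ) ≤ n := by exact_mod_cast (by omega : 17 ≤ n)
      have hl : Real.exp 1 < Real.log n := by
        have h3 : Real.log 16 < Real.log n := Real.log_lt_log (by norm_num) (by linarith)
        have h4 : Real.log 16 = 4 * Real.log 2 := by
          rw [show (16 : ℝ) = 2 ^ 4 by norm_num, Real.log_pow]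
          norm_num
        have h5 := Real.log_two_gt_d9
        have h6 := Real.exp_one_lt_d9
        linarith
      have hll : 0 < Real.log (Real.log n) := by
        refine Real.log_pos ?_
        have := Real.add_one_le_exp (1 : ℝ)
        linarith
      have habs := hn.2
      have hgam : Real.exp (-Real.eulerMascheroniConstant) = gam := rfl
      rw [hgam] at habs
      rcases le_abs.1 habs with h | h
      · right
        refine ⟨hn.1, le_trans ?_ (h2 n)⟩
        have h3 : gam + ε ≤ f n / Real.log (Real.log n) := by linarith
        rwa [le_div_iff₀ hll] at h3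
      · left
        refine ⟨hn.1, (h1 n).trans ?_⟩
        have h3 : f n / Real.log (Real.log n) ≤ gam - ε := by linarith
        rw [div_le_iff₀ hll] at h3
        exact h3.trans (mul_le_mul_of_nonneg_right (le_max_left _ _) hll.le)
  have hcard := (card_le_card hsub).trans (card_union_le _ _)
  rw [card_range] at hcard
  have hcard2 := hcard.trans (Nat.add_le_add_left (card_union_le _ _) _)
  exact_mod_cast hcard2

theorem normal_total (iz : Bool) {ε : ℝ} (hε : 0 < ε) :
    Tendsto (fun N : ℕ => (((range N).filter
      (fun n : ℕ => ε ≤ |totalSum iz n / Real.log (Real.log n) -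
        Real.exp (-Real.eulerMascheroniConstant)|)).card : ℝ) / N) atTop (nhds 0) :=
  normal iz (totalSum iz) (roughSum_le iz) (fun _ => le_rfl) hε

theorem normal_rough (iz : Bool) {ε : ℝ} (hε : 0 < ε) :
    Tendsto (fun N : ℕ => (((range N).filter
      (fun n : ℕ => ε ≤ |roughSum iz n / Real.log (Real.log n) -
        Real.exp (-Real.eulerMascheroniConstant)|)).card : ℝ) / N) atTop (nhds 0) :=
  normal iz (roughSum iz) (fun _ => le_rfl) (roughSum_le iz) hε

end Pool.Agent.TH437.GR
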