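import Pool.Agent.TH437.GR.Mean

/-!
# Brun's pure sieve
-/

set_option autoImplicit false

namespace Pool.Agent.TH437.GR

open Finset

/-- truncated inclusion-exclusion -/
noncomputable def tr (T : Finset ℕ) (K : ℕ) (x : ℕ → ℝ) : ℝ :=
  ∑ t ∈ T.powerset, if t.card ≤ K then (-1) ^ t.card * ∏ p ∈ t, x p else 0

/-- elementary symmetric functions -/
noncomputable def es (T : Finset ℕ) (K : ℕ) (x : ℕ → ℝ) : ℝ :=
  ∑ t ∈ T.powerset, if t.card = K then ∏ p ∈ t, x p else 0

theorem tr_succ (T : Finset ℕ) (K : ℕ) (x : ℕ → ℝ) :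
    tr T (K + 1) x = tr T K x + (-1) ^ (K + 1) * es T (K + 1) x := by
  unfold tr es
  rw [mul_sum, ← sum_add_distrib]
  refine sum_congr rfl fun t _ => ?_
  by_cases h1 : t.card ≤ K
  · have h2 : t.card ≤ K + 1 := by omega
    have h3 : ¬ t.card = K + 1 := by omega
    rw [if_pos h1, if_pos h2, if_neg h3]
    ring
  · by_cases h2 : t.card = K + 1
    · rw [if_neg h1, if_pos h2, if_pos (by omega), h2]
      ring
    · rw [if_neg h1, if_neg h2, if_neg (by omega)]
      ring

theorem tr_insert {T : Finset ℕ} {a : ℕ} (ha : a ∉ T) (K : ℕ) (x : ℕ → ℝ) :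
    tr (insert a T) (K + 1) x = tr T (K + 1) x - x a * tr T K x := by
  classical
  unfold tr
  rw [sum_powerset_insert ha, sub_eq_add_neg, ← neg_mul, mul_sum]
  congr 1
  refine sum_congr rfl fun t ht => ?_
  have hat : a ∉ t := fun h => ha (mem_powerset.1 ht h)
  rw [card_insert_of_notMem hat, prod_insert hat]
  by_cases h : t.card ≤ K
  · rw [if_pos (by omega), if_pos h]
    ring
  · rw [if_neg (by omega), if_neg h]
    ring

theorem tr_zero (T : Finset ℕ) (x : ℕ → ℝ) : tr T 0 x = 1 := by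
  classical
  unfold tr
  rw [sum_eq_single (∅ : Finset ℕ)]
  · simp
  · intro t _ ht
    rw [if_neg]
    intro h
    exact ht (card_eq_zero.1 (Nat.le_zero.1 h))
  · intro h
    exact absurd (empty_mem_powerset T) h

theorem bonferroni (T : Finset ℕ) (x : ℕ → ℝ) (hx : ∀ p ∈ T, 0 ≤ x p) (hx1 : ∀ p ∈ T, x p ≤ 1) :
    ∀ k, ∏ p ∈ T, (1 - x p) ≤ tr T (2 * k) x ∧ tr T (2 * k + 1) x ≤ ∏ p ∈ T, (1 - x p) := by
  classical
  induction T using Finset.induction_on with
  | empty =>
    intro k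
    unfold tr
    simp
  | insert a T ha ih =>
    have hx' : ∀ p ∈ T, 0 ≤ x p := fun p hp => hx p (mem_insert_of_mem hp)
    have hx1' : ∀ p ∈ T, x p ≤ 1 := fun p hp => hx1 p (mem_insert_of_mem hp)
    have hxa := hx a (mem_insert_self _ _)
    have hxa1 := hx1 a (mem_insert_self _ _)
    have ih := ih hx' hx1'
    intro k
    rw [prod_insert ha]
    set G := ∏ p ∈ T, (1 - x p) with hG
    have hG0 : 0 ≤ G := prod_nonneg fun p hp => by linarith [hx1' p hp]
    constructor
    · rcases k with _ | k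
      · rw [mul_zero, tr_zero]
        have h1 : G ≤ 1 := prod_le_one (fun p hp => by linarith [hx1' p hp])
          (fun p hp => by linarith [hx' p hp])
        nlinarith
      · have e : 2 * (k + 1) = (2 * k + 1) + 1 := by ring
        rw [e, tr_insert ha]
        have h1 := (ih (k + 1)).1
        rw [e] at h1
        have h2 := mul_le_mul_of_nonneg_left (ih k).2 hxa
        linarith
    · rw [tr_insert ha]
      have h1 := (ih k).2
      have h2 := mul_le_mul_of_nonneg_left (ih k).1 hxa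
      linarith

/-- Rankin's trick -/
theorem es_le (T : Finset ℕ) (x : ℕ → ℝ) (hx : ∀ p ∈ T, 0 ≤ x p) (K : ℕ) :
    es T K x ≤ Real.exp (-(2 * K) + Real.exp 2 * ∑ p ∈ T, x p) := by
  classical
  have h1 : es T K x ≤ ∑ t ∈ T.powerset, Real.exp (-(2 * K)) * ∏ p ∈ t, (Real.exp 2 * x p) := by
    unfold es
    refine sum_le_sum fun t ht => ?_
    have h0 : 0 ≤ ∏ p ∈ t, x p := prod_nonneg fun p hp => hx p (mem_powerset.1 ht hp)
    rw [prod_mul_distrib, prod_const]
    split_ifs with h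
    · rw [h, ← Real.exp_nat_mul, ← mul_assoc, ← Real.exp_add]
      have : -(2 * (K : ℝ)) + K * 2 = 0 := by ring
      rw [this, Real.exp_zero, one_mul]
    · positivity
  refine h1.trans ?_
  rw [← mul_sum, Real.exp_add]
  refine mul_le_mul_of_nonneg_left ?_ (Real.exp_pos _).le
  have h2 : ∑ t ∈ T.powerset, ∏ p ∈ t, (Real.exp 2 * x p) = ∏ p ∈ T, (1 + Real.exp 2 * x p) :=
    (prod_one_add T).symm
  rw [h2, mul_sum, Real.exp_sum]
  refine prod_le_prod (fun p hp => ?_) (fun p hp => ?_)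
  · have := hx p hp
    positivity
  · rw [add_comm]
    exact Real.add_one_le_exp _

/-- sums of periodic functions -/
theorem periodic_sum (u : ℕ → ℝ) (hu : ∀ n, 0 ≤ u n) {q : ℕ} (hq : 0 < q)
    (hper : ∀ n, u (n % q) = u n) (N : ℕ) :
    |∑ n ∈ range N, u n - (N / q : ℝ) * ∑ n ∈ range q, u n| ≤ ∑ n ∈ range q, u n := by
  set U := ∑ n ∈ range q, u n with hU
  have hU0 : 0 ≤ U := sum_nonneg fun n _ => hu n
  have hq0 : (0 : ℝ) < q := by exact_mod_cast hq
  have h1 : ∀ m : ℕ, ∑ n ∈ range (q * m), u n = m * U := by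
    intro m
    induction m with
    | zero => simp
    | succ m ih =>
      rw [Nat.mul_succ, sum_range_add, ih]
      have h2 : ∑ x ∈ range q, u (q * m + x) = U := by
        refine sum_congr rfl fun x hx => ?_
        rw [← hper (q * m + x), Nat.mul_add_mod, Nat.mod_eq_of_lt (mem_range.1 hx)]
      rw [h2]
      push_cast
      ring
  set m := N / q with hm
  set s := N % q with hs
  have hN : N = q * m + s := (Nat.div_add_mod N q).symm
  have hsq : s < q := Nat.mod_lt _ hq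
  have h3 : ∑ n ∈ range N, u n = m * U + ∑ n ∈ range s, u n := by
    rw [hN, sum_range_add, h1]
    congr 1
    refine sum_congr rfl fun x hx => ?_
    rw [← hper (q * m + x), Nat.mul_add_mod,
      Nat.mod_eq_of_lt (lt_trans (mem_range.1 hx) hsq)]
  have h4 : 0 ≤ ∑ n ∈ range s, u n := sum_nonneg fun n _ => hu n
  have h5 : ∑ n ∈ range s, u n ≤ U := by
    refine sum_le_sum_of_subset_of_nonneg ?_ fun n _ _ => hu n
    intro n hn
    rw [mem_range] at hn ⊢
    omega
  have h6 : (N / q : ℝ) * U = m * U + (s / q : ℝ) * U := by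
    have : (N : ℝ) = q * m + s := by exact_mod_cast hN
    rw [this]
    field_simp
  have h7 : 0 ≤ (s / q : ℝ) * U := by positivity
  have h8 : (s / q : ℝ) * U ≤ U := by
    have : (s / q : ℝ) ≤ 1 := by
      rw [div_le_one hq0]
      exact_mod_cast hsq.le
    nlinarith
  rw [h3, h6, abs_le]
  constructor <;> linarith

/-- Brun's pure sieve: averages over an interval against averages over all residues -/
theorem brun (A : ℕ) (g : ℕ → ℕ → ℝ) (hg0 : ∀ p r, 0 ≤ g p r) (hg1 : ∀ p r, g p r ≤ 1)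
    (hν : ∀ p ∈ Nat.primesBelow (A + 1), (p : ℝ) - ∑ r ∈ range p, g p r ≤ 2) (N k : ℕ) :
    |∑ n ∈ range N, ∏ p ∈ Nat.primesBelow (A + 1), g p (n % p) -
      N * ∏ p ∈ Nat.primesBelow (A + 1), ((∑ r ∈ range p, g p r) / p)| ≤
      N * Real.exp (-(2 * (2 * k + 1 : ℕ)) + Real.exp 2 * ∑ p ∈ Nat.primesBelow (A + 1), 2 / (p : ℝ)) +
      Real.exp 2 * (A + 1) ^ (2 * k + 1) := by
  classical
  set T := Nat.primesBelow (A + 1) with hT
  have hTp : ∀ p ∈ T, p.Prime := fun p hp => Nat.prime_of_mem_primesBelow hp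
  set x : ℕ → ℝ := fun p => 1 - (∑ r ∈ range p, g p r) / p with hx
  have hxp : ∀ p ∈ T, (p : ℝ) * x p = p - ∑ r ∈ range p, g p r := by
    intro p hp
    have hp0 : (p : ℝ) ≠ 0 := by exact_mod_cast (hTp p hp).ne_zero
    simp only [hx]
    field_simp
  have hs1 : ∀ p, ∑ r ∈ range p, g p r ≤ p := by
    intro p
    calc ∑ r ∈ range p, g p r ≤ ∑ r ∈ range p, (1 : ℝ) := sum_le_sum fun r _ => hg1 p r
      _ = p := by simp
  have hx0 : ∀ p ∈ T, 0 ≤ x p := by
    intro p hp
    have hp0 : (0 : ℝ) < p := by exact_mod_cast (hTp p hp).pos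
    simp only [hx]
    rw [sub_nonneg, div_le_one hp0]
    exact hs1 p
  have hx1 : ∀ p ∈ T, x p ≤ 1 := by
    intro p hp
    simp only [hx]
    have : 0 ≤ (∑ r ∈ range p, g p r) / (p : ℝ) :=
      div_nonneg (sum_nonneg fun r _ => hg0 p r) (Nat.cast_nonneg _)
    linarith
  have hx2 : ∀ p ∈ T, x p ≤ 2 / p := by
    intro p hp
    have hp0 : (0 : ℝ) < p := by exact_mod_cast (hTp p hp).pos
    rw [le_div_iff₀ hp0, mul_comm, hxp p hp]
    exact hν p hp
  have hM : ∏ p ∈ T, ((∑ r ∈ range p, g p r) / (p : ℝ)) = ∏ p ∈ T, (1 - x p) := by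
    refine prod_congr rfl fun p _ => ?_
    simp only [hx]
    ring
  set y : ℕ → ℕ → ℝ := fun n p => 1 - g p (n % p) with hy
  have hy0 : ∀ n, ∀ p ∈ T, 0 ≤ y n p := fun n p _ => by
    simp only [hy]; linarith [hg1 p (n % p)]
  have hy1 : ∀ n, ∀ p ∈ T, y n p ≤ 1 := fun n p _ => by
    simp only [hy]; linarith [hg0 p (n % p)]
  have hG : ∀ n, ∏ p ∈ T, g p (n % p) = ∏ p ∈ T, (1 - y n p) := by
    intro n
    refine prod_congr rfl fun p _ => ?_
    simp only [hy]
    ring
  -- one term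
  have hterm : ∀ t ∈ T.powerset, |∑ n ∈ range N, ∏ p ∈ t, y n p - N * ∏ p ∈ t, x p| ≤
      ∏ p ∈ t, (2 : ℝ) := by
    intro t ht
    rw [mem_powerset] at ht
    have hq : 0 < ∏ p ∈ t, p := prod_pos fun p hp => (hTp p (ht hp)).pos
    have h1 := periodic_sum (fun n => ∏ p ∈ t, y n p)
      (fun n => prod_nonneg fun p hp => hy0 n p (ht hp)) hq (by
        intro n
        refine prod_congr rfl fun p hp => ?_
        simp only [hy]
        rw [Nat.mod_mod_of_dvd n (dvd_prod_of_mem (fun p => p) hp)]) N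
    have h2 : ∑ n ∈ range (∏ p ∈ t, p), ∏ p ∈ t, y n p = ∏ p ∈ t, ((p : ℝ) * x p) := by
      simp only [hy]
      rw [crt t (fun p hp => hTp p (ht hp)) (fun p r => 1 - g p r)]
      refine prod_congr rfl fun p hp => ?_
      rw [hxp p (ht hp), sum_sub_distrib]
      simp
    rw [h2] at h1
    have h3 : ((N : ℝ) / ((∏ p ∈ t, p : ℕ) : ℝ)) * ∏ p ∈ t, ((p : ℝ) * x p) = N * ∏ p ∈ t, x p := by
      rw [prod_mul_distrib, Nat.cast_prod]
      have : (∏ p ∈ t, (p : ℝ)) ≠ 0 := by
        rw [← Nat.cast_prod]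
        exact_mod_cast hq.ne'
      field_simp
    rw [h3] at h1
    refine h1.trans ?_
    refine prod_le_prod (fun p hp => ?_) (fun p hp => ?_)
    · exact mul_nonneg (Nat.cast_nonneg _) (hx0 p (ht hp))
    · rw [hxp p (ht hp)]
      exact hν p (ht hp)
  -- truncated sums
  have htr : ∀ K : ℕ, K ≤ 2 * k + 1 → |∑ n ∈ range N, tr T K (y n) - N * tr T K x| ≤
      Real.exp 2 * (A + 1) ^ (2 * k + 1) := by
    intro K hK
    unfold tr
    rw [sum_comm, mul_sum, ← sum_sub_distrib]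
    refine (abs_sum_le_sum_abs _ _).trans ?_
    have h1 : ∀ t ∈ T.powerset, |∑ n ∈ range N, (if t.card ≤ K then (-1) ^ t.card * ∏ p ∈ t, y n p
        else 0) - N * (if t.card ≤ K then (-1) ^ t.card * ∏ p ∈ t, x p else 0)| ≤
        (A + 1) ^ (2 * k + 1) * ∏ p ∈ t, (2 / (A + 1) : ℝ) := by
      intro t ht
      have hA0 : (0 : ℝ) < (A : ℝ) + 1 := by positivity
      by_cases h : t.card ≤ K
      · simp only [h, if_true]
        rw [← mul_sum]
        have h2 : (-1 : ℝ) ^ t.card * ∑ n ∈ range N, ∏ p ∈ t, y n p -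
            N * ((-1) ^ t.card * ∏ p ∈ t, x p) =
            (-1) ^ t.card * (∑ n ∈ range N, ∏ p ∈ t, y n p - N * ∏ p ∈ t, x p) := by ring
        rw [h2, abs_mul, abs_pow, abs_neg, abs_one, one_pow, one_mul]
        refine (hterm t ht).trans ?_
        rw [prod_const, prod_const, div_pow]
        have h3 : ((A : ℝ) + 1) ^ t.card ≤ (A + 1) ^ (2 * k + 1) :=
          pow_le_pow_right₀ (by linarith [Nat.cast_nonneg (α := ℝ) A]) (by omega)
        rw [← mul_div_assoc, le_div_iff₀ (by positivity)]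
        nlinarith [pow_pos (show (0 : ℝ) < 2 by norm_num) t.card]
      · simp only [h, if_false]
        simp only [sum_const_zero, mul_zero, sub_zero, abs_zero]
        positivity
    refine (sum_le_sum h1).trans ?_
    rw [← mul_sum, ← prod_one_add, mul_comm]
    refine mul_le_mul_of_nonneg_right ?_ (by positivity)
    rw [prod_const]
    have hA0 : (0 : ℝ) < (A : ℝ) + 1 := by positivity
    have hcard : T.card ≤ A + 1 := by
      have : T ⊆ range (A + 1) := fun p hp => by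
        rw [mem_range]
        exact (Nat.mem_primesBelow.1 hp).1
      simpa using card_le_card this
    have h2 : (1 + 2 / ((A : ℝ) + 1)) ≤ Real.exp (2 / ((A : ℝ) + 1)) := by
      rw [add_comm]
      exact Real.add_one_le_exp _
    calc (1 + 2 / ((A : ℝ) + 1)) ^ T.card ≤ (Real.exp (2 / ((A : ℝ) + 1))) ^ T.card :=
          pow_le_pow_left₀ (by positivity) h2 _
      _ = Real.exp (T.card * (2 / ((A : ℝ) + 1))) := (Real.exp_nat_mul _ _).symm
      _ ≤ Real.exp 2 := by
          refine Real.exp_le_exp.2 ?_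
          have h3 : (T.card : ℝ) ≤ A + 1 := by exact_mod_cast hcard
          rw [← mul_div_assoc, div_le_iff₀ hA0]
          linarith
  -- the tails
  have hes : ∀ K : ℕ, 2 * k + 1 ≤ K → es T K x ≤
      Real.exp (-(2 * (2 * k + 1 : ℕ)) + Real.exp 2 * ∑ p ∈ T, 2 / (p : ℝ)) := by
    intro K hK
    refine (es_le T x hx0 K).trans (Real.exp_le_exp.2 ?_)
    have h1 : ∑ p ∈ T, x p ≤ ∑ p ∈ T, 2 / (p : ℝ) := sum_le_sum hx2
    have h2 := mul_le_mul_of_nonneg_left h1 (Real.exp_pos 2).le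
    have h3 : ((2 * k + 1 : ℕ) : ℝ) ≤ K := by exact_mod_cast hK
    linarith
  rw [hM]
  simp only [hG]
  have hN0 : (0 : ℝ) ≤ N := Nat.cast_nonneg _
  have hbx := bonferroni T x hx0 hx1
  have hup : ∑ n ∈ range N, ∏ p ∈ T, (1 - y n p) ≤ ∑ n ∈ range N, tr T (2 * k) (y n) :=
    sum_le_sum fun n _ => (bonferroni T (y n) (hy0 n) (hy1 n) k).1
  have hlow : ∑ n ∈ range N, tr T (2 * k + 1) (y n) ≤ ∑ n ∈ range N, ∏ p ∈ T, (1 - y n p) :=
    sum_le_sum fun n _ => (bonferroni T (y n) (hy0 n) (hy1 n) k).2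
  have h1 := abs_le.1 (htr (2 * k) (by omega))
  have h2 := abs_le.1 (htr (2 * k + 1) le_rfl)
  -- model
  have h3 : tr T (2 * k) x ≤ ∏ p ∈ T, (1 - x p) +
      Real.exp (-(2 * (2 * k + 1 : ℕ)) + Real.exp 2 * ∑ p ∈ T, 2 / (p : ℝ)) := by
    have h4 := tr_succ T (2 * k) x
    have h5 := (hbx k).2
    have h6 := hes (2 * k + 1) le_rfl
    have h7 : (-1 : ℝ) ^ (2 * k + 1) = -1 := by
      rw [pow_succ, pow_mul]
      norm_num
    rw [h7] at h4
    linarith
  have h4 : ∏ p ∈ T, (1 - x p) - 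
      Real.exp (-(2 * (2 * k + 1 : ℕ)) + Real.exp 2 * ∑ p ∈ T, 2 / (p : ℝ)) ≤ tr T (2 * k + 1) x := by
    have h4 := tr_succ T (2 * k + 1) x
    have h5 := (hbx (k + 1)).1
    have h6 := hes (2 * k + 2) (by omega)
    have h7 : (-1 : ℝ) ^ (2 * k + 1 + 1) = 1 := by
      rw [show 2 * k + 1 + 1 = 2 * (k + 1) by ring, pow_mul]
      norm_num
    rw [h7] at h4
    have e : 2 * (k + 1) = 2 * k + 1 + 1 := by ring
    rw [e] at h5
    have e2 : 2 * k + 2 = 2 * k + 1 + 1 := by ring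
    rw [e2] at h6
    linarith
  have h5 := mul_le_mul_of_nonneg_left h3 hN0
  have h6 := mul_le_mul_of_nonneg_left h4 hN0
  rw [abs_le]
  constructor
  · nlinarith [h2.1]
  · nlinarith [h1.2]

end Pool.Agent.TH437.GR
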