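import Mathlib

/-!
# Averages of products over the residues modulo a primorial
-/

set_option autoImplicit false

namespace Pool.Agent.TH437.GR

open Finset

theorem two_mod {q Q : ℕ} (hq : 0 < q) (hQ : 0 < Q) (hc : Nat.Coprime q Q) (u v : ℕ → ℝ) :
    ∑ n ∈ range (q * Q), u (n % q) * v (n % Q) = (∑ r ∈ range q, u r) * ∑ r ∈ range Q, v r := by
  rw [Finset.sum_mul_sum, ← Finset.sum_product']
  refine Finset.sum_nbij (fun n => (n % q, n % Q)) ?_ ?_ ?_ ?_
  · intro n _
    simp only [mem_product, mem_range]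
    exact ⟨Nat.mod_lt _ hq, Nat.mod_lt _ hQ⟩
  · intro n hn m hm h
    simp only [Prod.mk.injEq] at h
    rw [Finset.mem_coe, mem_range] at hn hm
    have h1 : n ≡ m [MOD q * Q] := (Nat.modEq_and_modEq_iff_modEq_mul hc).1 ⟨h.1, h.2⟩
    exact Nat.ModEq.eq_of_lt_of_lt h1 hn hm
  · rintro ⟨r, s⟩ h
    simp only [coe_product, Set.mem_prod, mem_coe, mem_range] at h
    have h1 := (Nat.chineseRemainder hc r s).2
    refine ⟨(Nat.chineseRemainder hc r s : ℕ), ?_, ?_⟩
    · rw [Finset.mem_coe, mem_range]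
      exact Nat.chineseRemainder_lt_mul hc r s hq.ne' hQ.ne'
    · simp only [Prod.mk.injEq]
      have h2 : (Nat.chineseRemainder hc r s : ℕ) % q = r % q := h1.1
      have h3 : (Nat.chineseRemainder hc r s : ℕ) % Q = s % Q := h1.2
      rw [Nat.mod_eq_of_lt h.1] at h2
      rw [Nat.mod_eq_of_lt h.2] at h3
      exact ⟨h2, h3⟩
  · intro n _
    rfl

theorem crt (T : Finset ℕ) (hT : ∀ p ∈ T, p.Prime) (g : ℕ → ℕ → ℝ) :
    ∑ n ∈ range (∏ p ∈ T, p), ∏ p ∈ T, g p (n % p) = ∏ p ∈ T, ∑ r ∈ range p, g p r := by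
  classical
  induction T using Finset.induction_on with
  | empty => simp
  | insert q T hq ih =>
    have hT' : ∀ p ∈ T, p.Prime := fun p hp => hT p (mem_insert_of_mem hp)
    have hqp : q.Prime := hT q (mem_insert_self _ _)
    have h1 : ∀ n, ∏ p ∈ insert q T, g p (n % p) =
        g q (n % q) * (fun m => ∏ p ∈ T, g p (m % p)) (n % ∏ p ∈ T, p) := by
      intro n
      rw [prod_insert hq]
      congr 1
      refine prod_congr rfl fun p hp => ?_
      rw [Nat.mod_mod_of_dvd n (dvd_prod_of_mem (fun p => p) hp)]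
    simp only [h1]
    rw [prod_insert hq, prod_insert hq, two_mod (u := g q)
      (v := fun m => ∏ p ∈ T, g p (m % p)) hqp.pos, ih hT']
    · exact prod_pos fun p hp => (hT' p hp).pos
    · refine Nat.Coprime.prod_right fun p hp => ?_
      rw [Nat.coprime_primes hqp (hT' p hp)]
      rintro rfl
      exact hq hp

/-- the indicator of one residue -/
noncomputable def dl (c r : ℕ) : ℝ := if r = c then 1 else 0

theorem sum_dl {p c : ℕ} (hc : c < p) : ∑ r ∈ range p, dl c r = 1 := by
  unfold dl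
  rw [Finset.sum_ite_eq']
  simp [hc]

theorem sum_one_sub {p c : ℕ} (hc : c < p) : ∑ r ∈ range p, (1 - dl c r) = p - 1 := by
  rw [sum_sub_distrib, sum_dl hc]
  simp

theorem sum_two {p c c' : ℕ} (hc : c < p) (hc' : c' < p) :
    ∑ r ∈ range p, (1 - dl c r) * (1 - dl c' r) = p - 2 + if c = c' then 1 else 0 := by
  have h1 : ∀ r, (1 - dl c r) * (1 - dl c' r) =
      1 - dl c r - dl c' r + (if c = c' then dl c r else 0) := by
    intro r
    unfold dl
    by_cases h1 : r = c
    · by_cases h2 : r = c'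
      · have : c = c' := h1.symm.trans h2
        simp [h1, h2, this]
      · have : c ≠ c' := fun h => h2 (h1.trans h)
        simp [h1, this]
    · by_cases h2 : r = c'
      · have : c ≠ c' := fun h => h1 (h2.trans h.symm)
        simp [h2, this, this.symm]
      · simp [h1, h2]
  simp only [h1]
  rw [sum_add_distrib, sum_sub_distrib, sum_sub_distrib, sum_dl hc, sum_dl hc']
  by_cases h : c = c'
  · simp only [h, if_true]
    rw [sum_dl hc']
    simp
    ring
  · simp [h]
    ring

/-- the local indicator: `n` is not congruent to `a` modulo `p`, if `p ≤ a` -/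
noncomputable def ind (a p r : ℕ) : ℝ := if p ≤ a then 1 - dl (a % p) r else 1

/-- the local density -/
noncomputable def e1 (a p : ℕ) : ℝ := if p ≤ a then 1 - 1 / (p : ℝ) else 1

/-- the constants of the singular series -/
noncomputable def al (p : ℕ) : ℝ := p * (p - 2) / ((p : ℝ) - 1) ^ 2

noncomputable def be (p : ℕ) : ℝ := p / ((p : ℝ) - 1) ^ 2

theorem avg1 {a p : ℕ} (hp : p.Prime) : (∑ r ∈ range p, ind a p r) = p * e1 a p := by
  have hp0 : (p : ℝ) ≠ 0 := by exact_mod_cast hp.ne_zero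
  unfold ind e1
  split_ifs with h
  · rw [sum_one_sub (Nat.mod_lt _ hp.pos)]
    field_simp
  · simp

theorem avg2 {a b p : ℕ} (hab : a < b) (hp : p.Prime) :
    (∑ r ∈ range p, ind a p r * ind b p r) =
      p * (e1 a p * e1 b p * (if p ≤ a then (al p + be p * (if p ∣ b - a then 1 else 0)) else 1)) := by
  have hp0 : (p : ℝ) ≠ 0 := by exact_mod_cast hp.ne_zero
  have hp1 : (p : ℝ) - 1 ≠ 0 := by
    have : (1 : ℝ) < p := by exact_mod_cast hp.one_lt
    linarith
  by_cases h : p ≤ a
  · have hb : p ≤ b := by omega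
    unfold ind e1
    simp only [h, hb, if_true]
    rw [sum_two (Nat.mod_lt _ hp.pos) (Nat.mod_lt _ hp.pos)]
    have h1 : (a % p = b % p) ↔ p ∣ b - a := (Nat.modEq_iff_dvd' hab.le)
    unfold al be
    by_cases h2 : p ∣ b - a
    · simp only [h1.2 h2, h2, if_true]
      field_simp
      try ring
    · have h3 : ¬ a % p = b % p := fun h => h2 (h1.1 h)
      simp only [h3, h2, if_false]
      field_simp
      try ring
  · by_cases hb : p ≤ b
    · unfold ind e1
      simp only [h, hb, if_true, if_false, one_mul, mul_one]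
      rw [sum_one_sub (Nat.mod_lt _ hp.pos)]
      field_simp
    · unfold ind e1
      simp only [h, hb, if_false, one_mul, mul_one]
      simp

/-- the density of the integers without prime factors up to `a` -/
noncomputable def P (a : ℕ) : ℝ := ∏ p ∈ Nat.primesBelow (a + 1), (1 - 1 / (p : ℝ))

/-- the singular series -/
noncomputable def SS (a d : ℕ) : ℝ :=
  ∏ p ∈ Nat.primesBelow (a + 1), (al p + be p * (if p ∣ d then 1 else 0))

theorem filt {a A : ℕ} (h : a ≤ A) :
    (Nat.primesBelow (A + 1)).filter (fun p => p ≤ a) = Nat.primesBelow (a + 1) := by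
  ext p
  simp only [mem_filter, Nat.mem_primesBelow]
  constructor
  · rintro ⟨⟨_, h2⟩, h3⟩
    exact ⟨by omega, h2⟩
  · rintro ⟨h1, h2⟩
    exact ⟨⟨by omega, h2⟩, by omega⟩

/-- the indicator that `n - a` has no prime factor up to `a` -/
noncomputable def F (A a n : ℕ) : ℝ := ∏ p ∈ Nat.primesBelow (A + 1), ind a p (n % p)

/-- the modulus -/
def Q (A : ℕ) : ℕ := ∏ p ∈ Nat.primesBelow (A + 1), p

theorem Q_pos (A : ℕ) : 0 < Q A := prod_pos fun p hp => (Nat.prime_of_mem_primesBelow hp).pos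

theorem mean1 {a A : ℕ} (h : a ≤ A) : ∑ n ∈ range (Q A), F A a n = Q A * P a := by
  unfold F Q P
  rw [crt _ (fun p hp => Nat.prime_of_mem_primesBelow hp)]
  rw [prod_congr rfl (fun p hp => avg1 (Nat.prime_of_mem_primesBelow hp)), prod_mul_distrib,
    Nat.cast_prod]
  congr 1
  unfold e1
  rw [← prod_filter, filt h]

theorem mean2 {a b A : ℕ} (hab : a < b) (h : b ≤ A) :
    ∑ n ∈ range (Q A), F A a n * F A b n = Q A * (P a * P b * SS a (b - a)) := by
  unfold F Q P SS
  simp only [← prod_mul_distrib]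
  rw [crt (Nat.primesBelow (A + 1)) (fun p hp => Nat.prime_of_mem_primesBelow hp)
    (fun p r => ind a p r * ind b p r)]
  rw [prod_congr rfl (fun p hp => avg2 hab (Nat.prime_of_mem_primesBelow hp)), prod_mul_distrib,
    Nat.cast_prod]
  congr 1
  rw [prod_mul_distrib, prod_mul_distrib]
  unfold e1
  rw [← prod_filter, ← prod_filter, ← prod_filter, filt h, filt (hab.le.trans h)]

/-- the partial sums of the singular series are at most their length -/
theorem sum_SS_le (a D : ℕ) : ∑ d ∈ Ioc 0 D, SS a d ≤ D := by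
  classical
  unfold SS
  set T := Nat.primesBelow (a + 1) with hT
  have hTp : ∀ p ∈ T, p.Prime := fun p hp => Nat.prime_of_mem_primesBelow hp
  have hal : ∀ p ∈ T, 0 ≤ al p := by
    intro p hp
    have : (2 : ℝ) ≤ p := by exact_mod_cast (hTp p hp).two_le
    unfold al
    have h2 : (0 : ℝ) ≤ p - 2 := by linarith
    positivity
  have hbe : ∀ p ∈ T, 0 ≤ be p := by
    intro p hp
    unfold be
    positivity
  have h1 : ∀ d, ∏ p ∈ T, (al p + be p * (if p ∣ d then 1 else 0)) =
      ∑ t ∈ T.powerset, (∏ p ∈ T \ t, al p) * (∏ p ∈ t, be p) *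
        (if (∏ p ∈ t, p) ∣ d then 1 else 0) := by
    intro d
    rw [prod_congr rfl (fun p _ => add_comm (al p) _), prod_add]
    refine sum_congr rfl fun t ht => ?_
    rw [mem_powerset] at ht
    rw [prod_mul_distrib]
    have h2 : ∏ p ∈ t, (if p ∣ d then (1 : ℝ) else 0) = if (∏ p ∈ t, p) ∣ d then 1 else 0 := by
      by_cases h : ∀ p ∈ t, p ∣ d
      · have h3 : (∏ p ∈ t, p) ∣ d :=
          Finset.prod_primes_dvd d (fun p hp => (hTp p (ht hp)).prime) h
        rw [if_pos h3]
        exact prod_eq_one fun p hp => if_pos (h p hp)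
      · have h3 : ¬ (∏ p ∈ t, p) ∣ d := by
          intro h4
          exact h fun p hp => (dvd_prod_of_mem (fun p => p) hp).trans h4
        rw [if_neg h3]
        push Not at h
        obtain ⟨p, hp, hpd⟩ := h
        exact prod_eq_zero hp (if_neg hpd)
    rw [h2]
    ring
  simp only [h1]
  rw [sum_comm]
  have h2 : ∀ t ∈ T.powerset, ∑ d ∈ Ioc 0 D, (∏ p ∈ T \ t, al p) * (∏ p ∈ t, be p) *
        (if (∏ p ∈ t, p) ∣ d then (1 : ℝ) else 0) ≤
      D * ((∏ p ∈ t, be p * (1 / (p : ℝ))) * (∏ p ∈ T \ t, al p)) := by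
    intro t ht
    rw [mem_powerset] at ht
    rw [← mul_sum]
    have h3 : ∑ d ∈ Ioc 0 D, (if (∏ p ∈ t, p) ∣ d then (1 : ℝ) else 0) =
        ((D / ∏ p ∈ t, p : ℕ) : ℝ) := by
      rw [← Nat.Ioc_filter_dvd_card_eq_div, sum_ite, sum_const_zero, add_zero, sum_const,
        nsmul_eq_mul, mul_one]
    have h4 : ((D / ∏ p ∈ t, p : ℕ) : ℝ) ≤ D * ∏ p ∈ t, (1 / (p : ℝ)) := by
      refine Nat.cast_div_le.trans ?_
      rw [Nat.cast_prod, div_eq_mul_inv, ← prod_inv_distrib]
      simp only [one_div]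
      exact le_refl _
    have h5 : 0 ≤ (∏ p ∈ T \ t, al p) * (∏ p ∈ t, be p) :=
      mul_nonneg (prod_nonneg fun p hp => hal p (mem_sdiff.1 hp).1)
        (prod_nonneg fun p hp => hbe p (ht hp))
    rw [h3, prod_mul_distrib]
    calc (∏ p ∈ T \ t, al p) * (∏ p ∈ t, be p) * ((D / ∏ p ∈ t, p : ℕ) : ℝ)
        ≤ (∏ p ∈ T \ t, al p) * (∏ p ∈ t, be p) * (D * ∏ p ∈ t, (1 / (p : ℝ))) :=
          mul_le_mul_of_nonneg_left h4 h5
      _ = _ := by ring
  refine (sum_le_sum h2).trans ?_
  rw [← mul_sum, ← prod_add]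
  have h6 : ∏ p ∈ T, (be p * (1 / (p : ℝ)) + al p) = 1 := by
    refine prod_eq_one fun p hp => ?_
    have hp1 : (p : ℝ) - 1 ≠ 0 := by
      have : (1 : ℝ) < p := by exact_mod_cast (hTp p hp).one_lt
      linarith
    have hp0 : (p : ℝ) ≠ 0 := by exact_mod_cast (hTp p hp).ne_zero
    unfold be al
    field_simp
    ring
  rw [h6, mul_one]

end Pool.Agent.TH437.GR
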