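import Pool.Agent.TH437.GR.Mean

/-!
# Rough shifts with growing thresholds: second moment
-/

set_option autoImplicit false

namespace Pool.Agent.TH437.GR

open Finset Filter

/-- the local indicator with a general residue class and threshold -/
noncomputable def jnd (z c p r : ℕ) : ℝ := if p ≤ z then 1 - dl c r else 1

theorem javg1 {z c p : ℕ} (hp : p.Prime) (hc : c < p) :
    (∑ r ∈ range p, jnd z c p r) = p * e1 z p := by
  have hp0 : (p : ℝ) ≠ 0 := by exact_mod_cast hp.ne_zero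
  unfold jnd e1
  split_ifs with h
  · rw [sum_one_sub hc]
    field_simp
  · simp

theorem javg2 {z z' c c' p : ℕ} (hz : z ≤ z') (hp : p.Prime) (hc : c < p) (hc' : c' < p) :
    (∑ r ∈ range p, jnd z c p r * jnd z' c' p r) =
      p * (e1 z p * e1 z' p * (if p ≤ z then (al p + be p * (if c = c' then 1 else 0)) else 1)) := by
  have hp0 : (p : ℝ) ≠ 0 := by exact_mod_cast hp.ne_zero
  have hp1 : (p : ℝ) - 1 ≠ 0 := by
    have : (1 : ℝ) < p := by exact_mod_cast hp.one_lt
    linarith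
  by_cases h : p ≤ z
  · have hb : p ≤ z' := by omega
    unfold jnd e1
    simp only [h, hb, if_true]
    rw [sum_two hc hc']
    unfold al be
    by_cases h2 : c = c'
    · simp only [h2, if_true]
      field_simp
      try ring
    · simp only [h2, if_false]
      field_simp
      try ring
  · by_cases hb : p ≤ z'
    · unfold jnd e1
      simp only [h, hb, if_true, if_false, one_mul, mul_one]
      rw [sum_one_sub hc']
      field_simp
    · unfold jnd e1
      simp only [h, hb, if_false, mul_one]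
      simp

/-- the indicator -/
noncomputable def G (Z : ℕ) (z : ℕ → ℕ) (res : ℕ → ℕ → ℕ) (a n : ℕ) : ℝ :=
  ∏ p ∈ Nat.primesBelow (Z + 1), jnd (z a) (res a p) p (n % p)

theorem G_nonneg (Z : ℕ) (z : ℕ → ℕ) (res : ℕ → ℕ → ℕ) (a n : ℕ) : 0 ≤ G Z z res a n := by
  unfold G jnd dl
  refine prod_nonneg fun p _ => ?_
  split_ifs <;> norm_num

theorem G_le_one (Z : ℕ) (z : ℕ → ℕ) (res : ℕ → ℕ → ℕ) (a n : ℕ) : G Z z res a n ≤ 1 := by
  unfold G jnd dl
  refine prod_le_one (fun p _ => ?_) (fun p _ => ?_)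
  · split_ifs <;> norm_num
  · split_ifs <;> norm_num

/-- the residue classes -/
def Good (res : ℕ → ℕ → ℕ) : Prop :=
  (∀ a p, p.Prime → res a p < p) ∧
  ∀ a b p, p.Prime → a < b → (res a p = res b p ↔ p ∣ b - a)

theorem gmean1 {Z : ℕ} {z : ℕ → ℕ} {res : ℕ → ℕ → ℕ} (hres : Good res) {a : ℕ} (h : z a ≤ Z) :
    ∑ n ∈ range (Q Z), G Z z res a n = Q Z * P (z a) := by
  unfold G Q P
  rw [crt _ (fun p hp => Nat.prime_of_mem_primesBelow hp) (fun p r => jnd (z a) (res a p) p r)]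
  rw [prod_congr rfl (fun p hp => javg1 (Nat.prime_of_mem_primesBelow hp)
    (hres.1 a p (Nat.prime_of_mem_primesBelow hp))), prod_mul_distrib, Nat.cast_prod]
  congr 1
  unfold e1
  rw [← prod_filter, filt h]

theorem gmean2 {Z : ℕ} {z : ℕ → ℕ} (hz : Monotone z) {res : ℕ → ℕ → ℕ} (hres : Good res)
    {a b : ℕ} (hab : a < b) (h : z b ≤ Z) :
    ∑ n ∈ range (Q Z), G Z z res a n * G Z z res b n =
      Q Z * (P (z a) * P (z b) * SS (z a) (b - a)) := by
  unfold G Q P SS
  simp only [← prod_mul_distrib]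
  rw [crt (Nat.primesBelow (Z + 1)) (fun p hp => Nat.prime_of_mem_primesBelow hp)
    (fun p r => jnd (z a) (res a p) p r * jnd (z b) (res b p) p r)]
  rw [prod_congr rfl (fun p hp => javg2 (hz hab.le) (Nat.prime_of_mem_primesBelow hp)
    (hres.1 a p (Nat.prime_of_mem_primesBelow hp)) (hres.1 b p (Nat.prime_of_mem_primesBelow hp))),
    prod_mul_distrib, Nat.cast_prod]
  congr 1
  rw [prod_mul_distrib, prod_mul_distrib]
  unfold e1
  rw [← prod_filter, ← prod_filter, ← prod_filter, filt h, filt ((hz hab.le).trans h)]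
  congr 1
  refine prod_congr rfl fun p hp => ?_
  have h1 := hres.2 a b p (Nat.prime_of_mem_primesBelow hp) hab
  by_cases h2 : p ∣ b - a
  · rw [if_pos h2, if_pos (h1.2 h2)]
  · rw [if_neg h2, if_neg (fun h3 => h2 (h1.1 h3))]

theorem P_anti {a b : ℕ} (h : a ≤ b) : P b ≤ P a := by
  induction b, h using Nat.le_induction with
  | base => exact le_rfl
  | succ b _ ih => exact (P_succ_le b).trans ih

/-- the number of good shifts -/
noncomputable def Y (Z : ℕ) (z : ℕ → ℕ) (res : ℕ → ℕ → ℕ) (A n : ℕ) : ℝ :=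
  ∑ a ∈ Icc 1 A, G Z z res a n

noncomputable def nu (z : ℕ → ℕ) (A : ℕ) : ℝ := ∑ a ∈ Icc 1 A, P (z a)

theorem gsq {Z : ℕ} {z : ℕ → ℕ} (hz : Monotone z) {res : ℕ → ℕ → ℕ} (hres : Good res) {A : ℕ}
    (hZ : z A ≤ Z) : ∑ n ∈ range (Q Z), (Y Z z res A n) ^ 2 ≤ Q Z * (nu z A + nu z A ^ 2) := by
  have hQ : (0 : ℝ) < Q Z := by exact_mod_cast Q_pos Z
  set g : ℕ → ℕ → ℝ := fun a b => ∑ n ∈ range (Q Z), G Z z res a n * G Z z res b n with hg
  have h1 : ∑ n ∈ range (Q Z), (Y Z z res A n) ^ 2 = ∑ a ∈ Icc 1 A, ∑ b ∈ Icc 1 A, g a b := by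
    simp only [hg]
    rw [sum_congr rfl fun a _ => sum_comm, sum_comm]
    refine sum_congr rfl fun n _ => ?_
    unfold Y
    rw [pow_two, Finset.sum_mul_sum]
  have hsym : ∀ a b, g a b = g b a := by
    intro a b
    simp only [hg]
    exact sum_congr rfl fun n _ => mul_comm _ _
  rw [h1, sym_sum g hsym A]
  have h2 : ∑ a ∈ Icc 1 A, g a a ≤ Q Z * nu z A := by
    unfold nu
    rw [mul_sum]
    refine sum_le_sum fun a ha => ?_
    rw [mem_Icc] at ha
    rw [← gmean1 hres ((hz ha.2).trans hZ)]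
    simp only [hg]
    refine sum_le_sum fun n _ => ?_
    exact mul_le_of_le_one_left (G_nonneg _ _ _ _ _) (G_le_one _ _ _ _ _)
  have h3 : ∀ a ∈ Icc 1 A, ∑ b ∈ Ioc a A, g a b ≤ Q Z * ∑ b ∈ Ioc a A, P (z a) * P (z b) := by
    intro a ha
    rw [mem_Icc] at ha
    have h4 : ∀ b ∈ Ioc a A, g a b = Q Z * (P (z a) * P (z b) * SS (z a) (b - a)) := by
      intro b hb
      rw [mem_Ioc] at hb
      simp only [hg]
      exact gmean2 hz hres hb.1 ((hz hb.2).trans hZ)
    rw [sum_congr rfl h4, ← mul_sum]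
    refine mul_le_mul_of_nonneg_left ?_ hQ.le
    have h5 : ∀ f : ℕ → ℝ, ∑ b ∈ Ioc a A, f b = ∑ d ∈ Ioc 0 (A - a), f (a + d) := by
      intro f
      refine sum_nbij' (fun b => b - a) (fun d => a + d) ?_ ?_ ?_ ?_ ?_
      · intro b hb
        rw [mem_Ioc] at hb ⊢
        omega
      · intro d hd
        rw [mem_Ioc] at hd ⊢
        omega
      · intro b hb
        rw [mem_Ioc] at hb
        show a + (b - a) = b
        omega
      · intro d _
        show a + d - a = d
        omega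
      · intro b hb
        rw [mem_Ioc] at hb
        congr 1
        omega
    rw [h5, h5]
    have h6 := abel (fun d => P (z (a + d))) (fun d => SS (z a) d - 1) (fun d => P_nonneg _)
      (fun d => P_anti (hz (by omega))) (by
        intro D
        rw [sum_sub_distrib]
        have := sum_SS_le (z a) D
        simp
        exact this) (A - a)
    have h7 : ∑ d ∈ Ioc 0 (A - a), P (z a) * P (z (a + d)) * SS (z a) (a + d - a) =
        ∑ d ∈ Ioc 0 (A - a), P (z a) * P (z (a + d)) + P (z a) * ∑ d ∈ Ioc 0 (A - a),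
          P (z (a + d)) * (SS (z a) d - 1) := by
      rw [mul_sum, ← sum_add_distrib]
      refine sum_congr rfl fun d _ => ?_
      rw [Nat.add_sub_cancel_left]
      ring
    rw [h7]
    have := mul_nonpos_of_nonneg_of_nonpos (P_nonneg (z a)) h6
    linarith
  have h4 : (nu z A) ^ 2 = ∑ a ∈ Icc 1 A, P (z a) * P (z a) +
      2 * ∑ a ∈ Icc 1 A, ∑ b ∈ Ioc a A, P (z a) * P (z b) := by
    rw [← sym_sum (fun a b => P (z a) * P (z b)) (fun a b => mul_comm _ _) A]
    unfold nu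
    rw [pow_two, Finset.sum_mul_sum]
  have h5 : 0 ≤ ∑ a ∈ Icc 1 A, P (z a) * P (z a) := sum_nonneg fun a _ => mul_self_nonneg _
  have h6 := sum_le_sum h3
  rw [← mul_sum] at h6
  rw [h4]
  nlinarith [mul_nonneg hQ.le h5]

theorem gmean {Z : ℕ} {z : ℕ → ℕ} (hz : Monotone z) {res : ℕ → ℕ → ℕ} (hres : Good res) {A : ℕ}
    (hZ : z A ≤ Z) : ∑ n ∈ range (Q Z), Y Z z res A n = Q Z * nu z A := by
  unfold Y nu
  rw [sum_comm, mul_sum]
  refine sum_congr rfl fun a ha => ?_
  rw [mem_Icc] at ha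
  exact gmean1 hres ((hz ha.2).trans hZ)

theorem gcheb {Z : ℕ} {z : ℕ → ℕ} (hz : Monotone z) {res : ℕ → ℕ → ℕ} (hres : Good res) {A : ℕ}
    (hZ : z A ≤ Z) {C : ℝ} (hC : C < nu z A) :
    (((range (Q Z)).filter (fun n => Y Z z res A n ≤ C)).card : ℝ) * (nu z A - C) ^ 2 ≤
      Q Z * nu z A := by
  have h1 : ∑ n ∈ range (Q Z), (Y Z z res A n - nu z A) ^ 2 ≤ Q Z * nu z A := by
    have h2 : ∀ n, (Y Z z res A n - nu z A) ^ 2 =
        (Y Z z res A n) ^ 2 - 2 * nu z A * Y Z z res A n + nu z A ^ 2 := by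
      intro n; ring
    simp only [h2]
    rw [sum_add_distrib, sum_sub_distrib, ← mul_sum, gmean hz hres hZ, sum_const, card_range,
      nsmul_eq_mul]
    have := gsq hz hres hZ
    nlinarith
  refine le_trans ?_ h1
  calc (((range (Q Z)).filter (fun n => Y Z z res A n ≤ C)).card : ℝ) * (nu z A - C) ^ 2
      = ∑ n ∈ (range (Q Z)).filter (fun n => Y Z z res A n ≤ C), (nu z A - C) ^ 2 := by
        rw [sum_const, nsmul_eq_mul]
    _ ≤ ∑ n ∈ (range (Q Z)).filter (fun n => Y Z z res A n ≤ C), (Y Z z res A n - nu z A) ^ 2 := by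
        refine sum_le_sum fun n hn => ?_
        rw [mem_filter] at hn
        have h2 : 0 ≤ nu z A - C := by linarith
        have h3 : nu z A - C ≤ nu z A - Y Z z res A n := by linarith [hn.2]
        nlinarith
    _ ≤ ∑ n ∈ range (Q Z), (Y Z z res A n - nu z A) ^ 2 :=
        sum_le_sum_of_subset_of_nonneg (filter_subset _ _) fun _ _ _ => sq_nonneg _

theorem Y_mod (Z : ℕ) (z : ℕ → ℕ) (res : ℕ → ℕ → ℕ) (A n : ℕ) :
    Y Z z res A (n % Q Z) = Y Z z res A n := by
  unfold Y G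
  refine sum_congr rfl fun a _ => ?_
  refine prod_congr rfl fun p hp => ?_
  have h : p ∣ Q Z := dvd_prod_of_mem (fun p => p) hp
  rw [Nat.mod_mod_of_dvd n h]

theorem gdensity {z : ℕ → ℕ} (hz : Monotone z) {res : ℕ → ℕ → ℕ} (hres : Good res)
    (hnu : Tendsto (nu z) atTop atTop) (C ε : ℝ) (hC : 0 ≤ C) (hε : 0 < ε) : ∃ A N₀ : ℕ, ∀ N : ℕ,
    N₀ ≤ N → (((range N).filter (fun n => Y (z A) z res A n ≤ C)).card : ℝ) ≤ ε * N := by
  obtain ⟨A, hA⟩ := (hnu.eventually_ge_atTop (2 * C + 1 + 8 / ε)).exists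
  set Z := z A with hZ
  have h8 : 0 < 8 / ε := by positivity
  have hQ : (0 : ℝ) < Q Z := by exact_mod_cast Q_pos Z
  refine ⟨A, Q Z, fun N hN => ?_⟩
  have hNQ : (Q Z : ℝ) ≤ N := by exact_mod_cast hN
  have h1 := gcheb hz hres (le_refl Z) (C := C) (by linarith)
  have h2 : nu z A / 2 ≤ nu z A - C := by linarith
  have hnu0 : 0 < nu z A := by linarith
  have h3 : (((range (Q Z)).filter (fun n => Y Z z res A n ≤ C)).card : ℝ) * nu z A ≤ 4 * Q Z := by
    have h4 : (nu z A / 2) ^ 2 ≤ (nu z A - C) ^ 2 := pow_le_pow_left₀ (by linarith) h2 2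
    have h5 := mul_le_mul_of_nonneg_left h4
      (Nat.cast_nonneg (α := ℝ) ((range (Q Z)).filter (fun n => Y Z z res A n ≤ C)).card)
    have h6 : ((((range (Q Z)).filter (fun n => Y Z z res A n ≤ C)).card : ℝ) * nu z A) * nu z A ≤
        (4 * Q Z) * nu z A := by nlinarith
    exact le_of_mul_le_mul_right h6 hnu0
  have hcount : ((range N).filter (fun n => Y Z z res A n ≤ C)).card ≤
      (N / Q Z + 1) * ((range (Q Z)).filter (fun n => Y Z z res A n ≤ C)).card := by
    rw [← card_range (N / Q Z + 1), ← card_product]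
    refine card_le_card_of_injOn (fun n => (n / Q Z, n % Q Z)) ?_ ?_
    · intro n hn
      rw [mem_coe, mem_filter, mem_range] at hn
      rw [mem_coe, mem_product, mem_filter, mem_range, mem_range]
      refine ⟨?_, Nat.mod_lt _ (Q_pos Z), ?_⟩
      · exact Nat.lt_succ_of_le (Nat.div_le_div_right hn.1.le)
      · rw [Y_mod]
        exact hn.2
    · intro n _ m _ h
      simp only [Prod.mk.injEq] at h
      rw [← Nat.div_add_mod n (Q Z), ← Nat.div_add_mod m (Q Z), h.1, h.2]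
  have hc2 : (((range N).filter (fun n => Y Z z res A n ≤ C)).card : ℝ) ≤
      ((N / Q Z : ℕ) + 1) * (((range (Q Z)).filter (fun n => Y Z z res A n ≤ C)).card : ℝ) := by
    exact_mod_cast hcount
  have h6 : ((N / Q Z : ℕ) : ℝ) ≤ N / Q Z := Nat.cast_div_le
  have h7 : (((N / Q Z : ℕ) : ℝ) + 1) * Q Z ≤ 2 * N := by
    have : (N / Q Z : ℝ) * Q Z = N := by field_simp
    nlinarith
  have h9 : (((range N).filter (fun n => Y Z z res A n ≤ C)).card : ℝ) * nu z A ≤ 8 * N := by
    calc _ ≤ (((N / Q Z : ℕ) + 1) * (((range (Q Z)).filter (fun n => Y Z z res A n ≤ C)).card : ℝ)) *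
          nu z A := mul_le_mul_of_nonneg_right hc2 hnu0.le
      _ = ((N / Q Z : ℕ) + 1) * ((((range (Q Z)).filter (fun n => Y Z z res A n ≤ C)).card : ℝ) *
          nu z A) := by ring
      _ ≤ ((N / Q Z : ℕ) + 1) * (4 * Q Z) := by
          refine mul_le_mul_of_nonneg_left h3 (by positivity)
      _ ≤ 8 * N := by nlinarith
  have h10 : 8 / ε ≤ nu z A := by linarith
  have h11 := mul_le_mul_of_nonneg_left h10
    (Nat.cast_nonneg (α := ℝ) ((range N).filter (fun n => Y Z z res A n ≤ C)).card)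
  have h12 : (((range N).filter (fun n => Y Z z res A n ≤ C)).card : ℝ) =
      ((((range N).filter (fun n => Y Z z res A n ≤ C)).card : ℝ) * (8 / ε)) * (ε / 8) := by
    field_simp
  rw [h12]
  calc _ ≤ (8 * N) * (ε / 8) := mul_le_mul_of_nonneg_right (h11.trans h9) (by positivity)
    _ = ε * N := by ring

end Pool.Agent.TH437.GR
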