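import Pool.Agent.TH437.GR.Gen
import Pool.Agent.TH437.GR.Small

/-!
# Composite shifts whose least prime factor is exponentially large in the shift
-/

set_option autoImplicit false

namespace Pool.Agent.TH437.GR

open Finset Filter

/-- the primes have density zero -/
theorem prime_density (ε : ℝ) (hε : 0 < ε) : ∃ N₀ : ℕ, ∀ N : ℕ, N₀ ≤ N →
    (((range N).filter Nat.Prime).card : ℝ) ≤ ε * N := by
  obtain ⟨z, hz⟩ := exists_nat_gt (Real.exp (50 / ε))
  have h50 : 0 < 50 / ε := by positivity
  have hz1 : (1 : ℝ) < z := by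
    have := Real.add_one_le_exp (50 / ε)
    linarith
  have hz2 : 2 ≤ z := by exact_mod_cast hz1
  have hlz : 50 / ε < Real.log z := by
    rw [Real.lt_log_iff_exp_lt (by linarith)]
    exact hz
  obtain ⟨M, hM⟩ := exists_nat_gt (2 * z / ε)
  refine ⟨max M z, fun N hN => ?_⟩
  have hMN : M ≤ N := (le_max_left _ _).trans hN
  have hzN : z ≤ N := (le_max_right _ _).trans hN
  have h1 : ((range N).filter Nat.Prime).card ≤
      z + (Pool.Agent.TH437.GRS.roughSet N z).card := by
    calc ((range N).filter Nat.Prime).card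
        ≤ (range z ∪ Pool.Agent.TH437.GRS.roughSet N z).card := by
          refine card_le_card fun m hm => ?_
          rw [mem_filter, mem_range] at hm
          rw [mem_union, mem_range, Pool.Agent.TH437.GRS.mem_roughSet]
          by_cases h : m < z
          · left; exact h
          · right
            refine ⟨⟨hm.2.one_lt.le, hm.1.le⟩, fun q hq hd => ?_⟩
            have := (Nat.prime_dvd_prime_iff_eq hq hm.2).1 hd
            omega
      _ ≤ _ := (card_union_le _ _).trans (by rw [card_range])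
  have h2 := Pool.Agent.TH437.GRS.rough_card hz2 hzN
  have h3 : ((Pool.Agent.TH437.GRS.roughSet N z).card : ℝ) ≤ ε / 2 * N := by
    have h4 : ((Pool.Agent.TH437.GRS.roughSet N z).card : ℝ) * (50 / ε) ≤ 25 * N :=
      (mul_le_mul_of_nonneg_left hlz.le (Nat.cast_nonneg _)).trans h2
    rw [← mul_div_assoc, div_le_iff₀ hε] at h4
    linarith
  have h4 : (z : ℝ) ≤ ε / 2 * N := by
    have h5 : (M : ℝ) ≤ N := by exact_mod_cast hMN
    have h6 : 2 * (z : ℝ) / ε ≤ N := by linarith
    rw [div_le_iff₀ hε] at h6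
    linarith
  have h5 : (((range N).filter Nat.Prime).card : ℝ) ≤
      ((z + (Pool.Agent.TH437.GRS.roughSet N z).card : ℕ) : ℝ) := by exact_mod_cast h1
  push_cast at h5
  linarith

/-- the thresholds -/
noncomputable def zz (C : ℝ) (K a : ℕ) : ℕ := ⌊Real.exp (C * ((K + a : ℕ) : ℝ))⌋₊

theorem zz_mono {C : ℝ} (hC : 0 ≤ C) (K : ℕ) : Monotone (zz C K) := by
  intro a b h
  unfold zz
  refine Nat.floor_le_floor (Real.exp_le_exp.2 (mul_le_mul_of_nonneg_left ?_ hC))
  exact_mod_cast (by omega : K + a ≤ K + b)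

theorem nu_tendsto {C : ℝ} (hC : 1 ≤ C) (K : ℕ) : Tendsto (nu (zz C K)) atTop atTop := by
  obtain ⟨c, hc, hP⟩ := P_lower
  have hC0 : 0 < C := by linarith
  have h1 : ∀ A : ℕ, c / (C * (K + 1)) * Real.log ((A + 1 : ℕ) : ℝ) ≤ nu (zz C K) A := by
    intro A
    have h2 := log_add_one_le_harmonic A
    have h3 : ((harmonic A : ℚ) : ℝ) = ∑ a ∈ Icc 1 A, 1 / (a : ℝ) := by
      rw [harmonic_eq_sum_Icc]; push_cast; simp [one_div]
    rw [h3] at h2
    refine (mul_le_mul_of_nonneg_left h2 (by positivity)).trans ?_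
    rw [mul_sum]
    unfold nu
    refine sum_le_sum fun a ha => ?_
    rw [mem_Icc] at ha
    have ha1 : (1 : ℝ) ≤ a := by exact_mod_cast ha.1
    set x := C * ((K + a : ℕ) : ℝ) with hx
    have hKa : (1 : ℝ) ≤ ((K + a : ℕ) : ℝ) := by exact_mod_cast (by omega : 1 ≤ K + a)
    have hx1 : 1 ≤ x := by nlinarith
    have hz2 : 2 ≤ zz C K a := by
      unfold zz
      refine Nat.le_floor ?_
      show ((2 : ℕ) : ℝ) ≤ Real.exp x
      have := Real.add_one_le_exp x
      have e2 : ((2 : ℕ) : ℝ) = 2 := by norm_num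
      rw [e2]
      linarith
    have h4 := hP (zz C K a) hz2
    refine le_trans ?_ h4
    have hl0 : 0 < Real.log (zz C K a) := Real.log_pos (by exact_mod_cast (by omega : 1 < zz C K a))
    have hl : Real.log (zz C K a) ≤ x := by
      have h5 : ((zz C K a : ℕ) : ℝ) ≤ Real.exp x := Nat.floor_le (Real.exp_pos _).le
      have h6 := Real.log_le_log (by exact_mod_cast (by omega : 0 < zz C K a)) h5
      rwa [Real.log_exp] at h6
    have hx2 : x ≤ C * (K + 1) * a := by
      rw [hx]
      push_cast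
      have : (K : ℝ) + a ≤ (K + 1) * a := by
        have : (0 : ℝ) ≤ K := Nat.cast_nonneg _
        nlinarith
      nlinarith
    have h7 : c / (C * (K + 1)) * (1 / a) = c / (C * (K + 1) * a) := by
      field_simp
    rw [h7]
    exact div_le_div_of_nonneg_left hc.le hl0 (hl.trans hx2)
  refine tendsto_atTop_mono h1 ?_
  refine Tendsto.const_mul_atTop (by positivity) ?_
  exact Real.tendsto_log_atTop.comp (tendsto_natCast_atTop_atTop.comp (tendsto_add_atTop_nat 1))

theorem G_ne {Z : ℕ} {z : ℕ → ℕ} {res : ℕ → ℕ → ℕ} {a n : ℕ} (hG : G Z z res a n ≠ 0)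
    (hZ : z a ≤ Z) {p : ℕ} (hp : p.Prime) (hpz : p ≤ z a) : n % p ≠ res a p := by
  intro h
  apply hG
  unfold G
  refine prod_eq_zero (Nat.mem_primesBelow.2 ⟨by omega, hp⟩) ?_
  unfold jnd dl
  rw [if_pos hpz, if_pos h, sub_self]

open Classical in
/-- the property: at least `K` shifts `k > K` with `s n k` composite and free of primes up to
`exp (C k)` -/
def Has (s : ℕ → ℕ → ℕ) (C : ℝ) (K n : ℕ) : Prop :=
  ∃ S : Finset ℕ, K ≤ S.card ∧ ∀ k ∈ S, K < k ∧ k < n ∧ 2 ≤ s n k ∧ ¬ (s n k).Prime ∧
    Real.exp (C * k) < ((s n k).minFac : ℝ)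

open Classical in
theorem gen (s : ℕ → ℕ → ℕ) (res : ℕ → ℕ → ℕ) {C : ℝ} (hC : 1 ≤ C) (K : ℕ) (hres : Good res)
    (hs1 : ∀ n a p, p.Prime → K + a + 2 ≤ n → n % p ≠ res a p → ¬ p ∣ s n (K + a))
    (hs2 : ∀ n k, k + 2 ≤ n → 2 ≤ s n k)
    (hs3 : ∀ k n m, k + 2 ≤ n → k + 2 ≤ m → s n k = s m k → n = m)
    (hs4 : ∀ n k, s n k ≤ n + k) :
    Tendsto (fun N : ℕ => (((range N).filter (fun n => ¬ Has s C K n)).card : ℝ) / N)
      atTop (nhds 0) := by
  rw [Metric.tendsto_atTop]
  intro ε hε
  obtain ⟨A, N₁, h1⟩ := gdensity (zz_mono (by linarith : (0:ℝ) ≤ C) K) hres (nu_tendsto hC K)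
    (K : ℝ) (ε / 8) (Nat.cast_nonneg _) (by positivity)
  set z := zz C K with hz
  obtain ⟨N₂, h2⟩ := prime_density (ε / (8 * (A + 1))) (by positivity)
  obtain ⟨M, hM⟩ := exists_nat_gt ((K + A + 2 : ℕ) * 8 / ε)
  refine ⟨max (max N₁ N₂) (max M (K + A)) + 1, fun N hN => ?_⟩
  have hN1 : N₁ ≤ N := by
    have := le_max_left (max N₁ N₂) (max M (K + A))
    have := le_max_left N₁ N₂
    omega
  have hN2 : N₂ ≤ N := by
    have := le_max_left (max N₁ N₂) (max M (K + A))
    have := le_max_right N₁ N₂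
    omega
  have hNM : M ≤ N := by
    have := le_max_right (max N₁ N₂) (max M (K + A))
    have := le_max_left M (K + A)
    omega
  have hNK : K + A ≤ N := by
    have := le_max_right (max N₁ N₂) (max M (K + A))
    have := le_max_right M (K + A)
    omega
  have hNpos : 0 < N := by omega
  have hNr : (0 : ℝ) < N := by exact_mod_cast hNpos
  have hsub : (range N).filter (fun n => ¬ Has s C K n) ⊆
      range (K + A + 2) ∪ ((range N).filter (fun n => Y (z A) z res A n ≤ (K : ℝ)) ∪
        (Icc 1 A).biUnion (fun a => (range N).filter (fun n => K + a + 2 ≤ n ∧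
          (s n (K + a)).Prime))) := by
    intro n hn
    rw [mem_filter, mem_range] at hn
    simp only [mem_union, mem_range, mem_filter, mem_biUnion]
    by_contra hcon
    push Not at hcon
    obtain ⟨h3, h4, h5⟩ := hcon
    have h4 := h4 hn.1
    apply hn.2
    set T := (Icc 1 A).filter (fun a => G (z A) z res a n ≠ 0) with hT
    have hcard : (K : ℝ) ≤ (T.card : ℝ) := by
      have h6 : Y (z A) z res A n ≤ (T.card : ℝ) := by
        unfold Y
        have h7 : ∑ a ∈ Icc 1 A, G (z A) z res a n = ∑ a ∈ T, G (z A) z res a n := by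
          rw [hT, sum_filter_ne_zero]
        rw [h7]
        calc ∑ a ∈ T, G (z A) z res a n ≤ ∑ a ∈ T, (1 : ℝ) :=
              sum_le_sum fun a _ => G_le_one _ _ _ _ _
          _ = (T.card : ℝ) := by simp
      linarith
    refine ⟨T.image (fun a => K + a), ?_, ?_⟩
    · rw [card_image_of_injective _ (fun a b h => Nat.add_left_cancel h)]
      exact_mod_cast hcard
    · intro k hk
      rw [mem_image] at hk
      obtain ⟨a, ha, rfl⟩ := hk
      rw [hT, mem_filter, mem_Icc] at ha
      have hna : K + a + 2 ≤ n := by omega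
      have h2s := hs2 n (K + a) hna
      refine ⟨by omega, by omega, h2s, ?_, ?_⟩
      · exact h5 a (mem_Icc.2 ha.1) hn.1 hna
      · have hzA : z a ≤ z A := zz_mono (by linarith) K ha.1.2
        have hmf : z a < (s n (K + a)).minFac := by
          by_contra hle
          push Not at hle
          have hpr : (s n (K + a)).minFac.Prime := Nat.minFac_prime (by omega)
          exact hs1 n a _ hpr hna (G_ne ha.2 hzA hpr hle) (Nat.minFac_dvd _)
        have h6 : Real.exp (C * ((K + a : ℕ) : ℝ)) < (z a : ℝ) + 1 := Nat.lt_floor_add_one _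
        have h7 : (z a : ℝ) + 1 ≤ ((s n (K + a)).minFac : ℝ) := by exact_mod_cast hmf
        linarith
  have hcard := card_le_card hsub
  have hb : ((Icc 1 A).biUnion (fun a => (range N).filter (fun n => K + a + 2 ≤ n ∧
          (s n (K + a)).Prime))).card ≤ A * ((range (2 * N)).filter Nat.Prime).card := by
    refine (card_biUnion_le_card_mul (Icc 1 A) _ ((range (2 * N)).filter Nat.Prime).card
      ?_).trans_eq (by simp)
    intro a ha
    rw [mem_Icc] at ha
    refine card_le_card_of_injOn (fun n => s n (K + a)) ?_ ?_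
    · intro n hn
      rw [mem_coe, mem_filter, mem_range] at hn
      rw [mem_coe, mem_filter, mem_range]
      refine ⟨?_, hn.2.2⟩
      show s n (K + a) < 2 * N
      have := hs4 n (K + a)
      omega
    · intro n hn m hm h
      rw [mem_coe, mem_filter] at hn hm
      exact hs3 (K + a) n m hn.2.1 hm.2.1 h
  have h3 := h1 N hN1
  have h4 := h2 (2 * N) (by omega)
  have hA0 : (0 : ℝ) < (A : ℝ) + 1 := by positivity
  have h5 : (A : ℝ) * (((range (2 * N)).filter Nat.Prime).card : ℝ) ≤ ε / 4 * N := by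
    have h6 : (A : ℝ) * (((range (2 * N)).filter Nat.Prime).card : ℝ) ≤
        (A + 1) * (ε / (8 * (A + 1)) * ((2 * N : ℕ) : ℝ)) := by
      refine mul_le_mul (by linarith) h4 (Nat.cast_nonneg _) hA0.le
    have h7 : ((A : ℝ) + 1) * (ε / (8 * (A + 1)) * ((2 * N : ℕ) : ℝ)) = ε / 4 * N := by
      push_cast
      field_simp
      ring
    rw [h7] at h6
    exact h6
  have h6 : ((K + A + 2 : ℕ) : ℝ) ≤ ε / 8 * N := by
    have h7 : (M : ℝ) ≤ N := by exact_mod_cast hNM
    have h8 : ((K + A + 2 : ℕ) : ℝ) * 8 / ε ≤ N := by linarith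
    rw [div_le_iff₀ hε] at h8
    linarith
  have h7 : ((range N).filter (fun n => ¬ Has s C K n)).card ≤ (K + A + 2) +
      (((range N).filter (fun n => Y (z A) z res A n ≤ (K : ℝ))).card +
        A * ((range (2 * N)).filter Nat.Prime).card) := by
    refine hcard.trans ((card_union_le _ _).trans ?_)
    rw [card_range]
    refine Nat.add_le_add_left ((card_union_le _ _).trans ?_) _
    exact Nat.add_le_add_left hb _
  have h8 : (((range N).filter (fun n => ¬ Has s C K n)).card : ℝ) ≤ ((K + A + 2 : ℕ) : ℝ) +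
      ((((range N).filter (fun n => Y (z A) z res A n ≤ (K : ℝ))).card : ℝ) +
        A * (((range (2 * N)).filter Nat.Prime).card : ℝ)) := by exact_mod_cast h7
  rw [Real.dist_eq, sub_zero, abs_of_nonneg (by positivity), div_lt_iff₀ hNr]
  have h9 : 0 < ε * N := by positivity
  linarith

end Pool.Agent.TH437.GR
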