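import Pool.Agent.TH437.GR.Mean
import Pool.Prelude.Def_F_8adaa765

/-!
# The greedy sequence contains all rough shifts
-/

set_option autoImplicit false

namespace Pool.Agent.TH437.GR

open Finset Filter N435e839e

theorem prefix_le (iz : Bool) (n t b : ℕ) (hb : b ∈ greedyPrefix iz n t) : b ≤ t := by
  induction t with
  | zero =>
    unfold greedyPrefix at hb
    split_ifs at hb
    · rw [mem_singleton] at hb
      omega
    · simp at hb
  | succ t ih =>
    unfold greedyPrefix at hb
    simp only at hb
    split_ifs at hb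
    · rw [mem_insert] at hb
      rcases hb with rfl | hb
      · exact le_refl _
      · exact (ih hb).trans (Nat.le_succ _)
    · exact (ih hb).trans (Nat.le_succ _)

theorem prefix_mono (iz : Bool) (n : ℕ) {s t : ℕ} (h : s ≤ t) :
    greedyPrefix iz n s ⊆ greedyPrefix iz n t := by
  induction t, h using Nat.le_induction with
  | base => exact fun _ h => h
  | succ t _ ih =>
    refine ih.trans ?_
    intro b hb
    rw [greedyPrefix]
    split_ifs
    · exact mem_insert_of_mem hb
    · exact hb

theorem rough_selected (iz : Bool) {n a : ℕ} (h0 : 0 < a) (han : a < n) (hr : Rough n a) :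
    a ∈ selected iz n := by
  unfold selected
  rw [mem_filter]
  refine ⟨?_, h0, han⟩
  refine prefix_mono iz n (show a ≤ n - 1 by omega) ?_
  obtain ⟨t, rfl⟩ : ∃ t, a = t + 1 := ⟨a - 1, by omega⟩
  rw [greedyPrefix]
  rw [if_pos]
  · exact mem_insert_self _ _
  · right
    intro b hb
    have hbt := prefix_le iz n t b hb
    rw [Nat.coprime_iff_gcd_eq_one]
    by_contra hne
    obtain ⟨q, hq, hqd⟩ := Nat.exists_prime_and_dvd hne
    have h1 : q ∣ n - (t + 1) := hqd.trans (Nat.gcd_dvd_left _ _)
    have h2 : q ∣ n - b := hqd.trans (Nat.gcd_dvd_right _ _)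
    have h3 : q ∣ (t + 1) - b := by
      have : (t + 1) - b = (n - b) - (n - (t + 1)) := by omega
      rw [this]
      exact Nat.dvd_sub h2 h1
    have h4 : q ≤ (t + 1) - b := Nat.le_of_dvd (by omega) h3
    exact hr ⟨q, hq, by omega, h1⟩

theorem F_zero {A a n : ℕ} (haA : a ≤ A) (han : a ≤ n) (hr : ¬ Rough n a) : F A a n = 0 := by
  unfold Rough at hr
  rw [not_not] at hr
  obtain ⟨p, hp, hpa, hd⟩ := hr
  unfold F
  refine prod_eq_zero (Nat.mem_primesBelow.2 ⟨by omega, hp⟩) ?_
  unfold ind dl
  have h1 : n % p = a % p := ((Nat.modEq_iff_dvd' han).2 hd).symm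
  rw [if_pos hpa, if_pos h1, sub_self]

theorem X_le (iz : Bool) {A n : ℕ} (h : A < n) : X A n ≤ roughSum iz n := by
  classical
  unfold X roughSum
  calc ∑ a ∈ Icc 1 A, F A a n / a
      = ∑ a ∈ (Icc 1 A).filter (Rough n), F A a n / a := by
        rw [sum_filter]
        refine sum_congr rfl fun a ha => ?_
        rw [mem_Icc] at ha
        split_ifs with hr
        · rfl
        · rw [F_zero ha.2 (by omega) hr, zero_div]
    _ ≤ ∑ a ∈ (Icc 1 A).filter (Rough n), (1 : ℝ) / a := by
        refine sum_le_sum fun a _ => ?_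
        exact div_le_div_of_nonneg_right (F_le_one A a n) (Nat.cast_nonneg _)
    _ ≤ _ := by
        refine sum_le_sum_of_subset_of_nonneg ?_ fun _ _ _ => by positivity
        intro a ha
        rw [mem_filter, mem_Icc] at ha
        rw [mem_filter]
        exact ⟨rough_selected iz (by omega) (by omega) ha.2, ha.2⟩

theorem roughSum_le (iz : Bool) (n : ℕ) : roughSum iz n ≤ totalSum iz n := by
  classical
  unfold roughSum totalSum
  exact sum_le_sum_of_subset_of_nonneg (filter_subset _ _) fun _ _ _ => by positivity

theorem almost_all (iz : Bool) (C : ℝ) :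
    Tendsto (fun N : ℕ => (((range N).filter (fun n => roughSum iz n ≤ C)).card : ℝ) / N)
      atTop (nhds 0) := by
  rw [Metric.tendsto_atTop]
  intro ε hε
  obtain ⟨A, N₀, h⟩ := density C (ε / 4) (by positivity)
  obtain ⟨M, hM⟩ := exists_nat_gt ((A + 1) * 4 / ε)
  refine ⟨max N₀ M + 1, fun N hN => ?_⟩
  have hN1 : N₀ ≤ N := by
    have := le_max_left N₀ M
    omega
  have hN2 : M ≤ N := by
    have := le_max_right N₀ M
    omega
  have hN3 : (0 : ℝ) < N := by exact_mod_cast (by omega : 0 < N)
  have h1 : ((range N).filter (fun n => roughSum iz n ≤ C)).card ≤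
      (A + 1) + ((range N).filter (fun n => X A n ≤ C)).card := by
    calc ((range N).filter (fun n => roughSum iz n ≤ C)).card
        ≤ (range (A + 1) ∪ (range N).filter (fun n => X A n ≤ C)).card := by
          refine card_le_card fun n hn => ?_
          rw [mem_filter] at hn
          rw [mem_union]
          by_cases hnA : A < n
          · right
            rw [mem_filter]
            exact ⟨hn.1, (X_le iz hnA).trans hn.2⟩
          · left
            rw [mem_range]
            omega
      _ ≤ (range (A + 1)).card + _ := card_union_le _ _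
      _ = _ := by rw [card_range]
  have h2 : (((range N).filter (fun n => roughSum iz n ≤ C)).card : ℝ) ≤ (A + 1) + ε / 4 * N := by
    have h3 : (((range N).filter (fun n => roughSum iz n ≤ C)).card : ℝ) ≤
        (((A + 1) + ((range N).filter (fun n => X A n ≤ C)).card : ℕ) : ℝ) := by exact_mod_cast h1
    push_cast at h3
    linarith [h N hN1]
  have h3 : ((A : ℝ) + 1) ≤ ε / 4 * N := by
    have h4 : (M : ℝ) ≤ N := by exact_mod_cast hN2
    have h5 : ((A : ℝ) + 1) * 4 / ε ≤ N := by linarith
    rw [div_le_iff₀ hε] at h5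
    linarith
  rw [Real.dist_eq, sub_zero, abs_of_nonneg (by positivity), div_lt_iff₀ hN3]
  nlinarith

theorem almost_all_total (iz : Bool) (C : ℝ) :
    Tendsto (fun N : ℕ => (((range N).filter (fun n => totalSum iz n ≤ C)).card : ℝ) / N)
      atTop (nhds 0) := by
  refine squeeze_zero (fun N => by positivity) (fun N => ?_) (almost_all iz C)
  refine div_le_div_of_nonneg_right ?_ (Nat.cast_nonneg _)
  have : ((range N).filter (fun n => totalSum iz n ≤ C)).card ≤
      ((range N).filter (fun n => roughSum iz n ≤ C)).card := by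
    refine card_le_card fun n hn => ?_
    rw [mem_filter] at hn ⊢
    exact ⟨hn.1, (roughSum_le iz n).trans hn.2⟩
  exact_mod_cast this

end Pool.Agent.TH437.GR
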