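import Pool.Agent.TH437.GR.Var

/-!
# The mean tends to infinity
-/

set_option autoImplicit false

namespace Pool.Agent.TH437.GR

open Finset Filter

theorem one_sub_ge {x : ℝ} (h0 : 0 ≤ x) (h1 : x ≤ 1 / 2) :
    Real.exp (-(x + 2 * x ^ 2)) ≤ 1 - x := by
  have h2 : 0 < 1 - x := by linarith
  rw [← Real.le_log_iff_exp_le h2]
  have h3 := Real.one_sub_inv_le_log_of_pos h2
  refine le_trans ?_ h3
  have h4 : (1 - x)⁻¹ ≤ 1 + x + 2 * x ^ 2 := by
    rw [inv_le_iff_one_le_mul₀ h2]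
    nlinarith [mul_nonneg h0 (sq_nonneg x), mul_nonneg (sq_nonneg x) (by linarith : 0 ≤ 1 - 2 * x)]
  linarith

theorem P_lower : ∃ c : ℝ, 0 < c ∧ ∀ n : ℕ, 2 ≤ n → c / Real.log n ≤ P n := by
  obtain ⟨C, hC⟩ := Pool.Agent.Helper256.KM.mertens_inv
  have hs : Summable (fun n : ℕ => 1 / (n : ℝ) ^ 2) := Real.summable_one_div_nat_pow.2 (by norm_num)
  set S := ∑' n : ℕ, 1 / (n : ℝ) ^ 2 with hS
  refine ⟨Real.exp (-(C + 2 * S)) / 2, by positivity, fun n hn => ?_⟩
  unfold P
  have hn2 : (2 : ℝ) ≤ n := by exact_mod_cast hn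
  have hlog : 0 < Real.log n := Real.log_pos (by linarith)
  have h1 : ∏ p ∈ Nat.primesBelow (n + 1), Real.exp (-(1 / (p : ℝ) + 2 * (1 / (p : ℝ)) ^ 2))
      ≤ ∏ p ∈ Nat.primesBelow (n + 1), (1 - 1 / (p : ℝ)) := by
    refine Finset.prod_le_prod (fun p _ => (Real.exp_pos _).le) fun p hp => ?_
    have hp2 : (2 : ℝ) ≤ p := by exact_mod_cast (Nat.prime_of_mem_primesBelow hp).two_le
    refine one_sub_ge (by positivity) ?_
    exact one_div_le_one_div_of_le (by norm_num) hp2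
  refine le_trans ?_ h1
  rw [← Real.exp_sum]
  have h2 : ∑ p ∈ Nat.primesBelow (n + 1), (1 : ℝ) / p ≤ Real.log (Real.log (n + 1 : ℕ)) + C := by
    have h3 := (abs_le.mp (hC (n + 1) (by omega))).2
    have h4 : ∑ p ∈ Nat.primesBelow (n + 1), (1 : ℝ) / p
        ≤ ∑ p ∈ (Finset.Icc 1 (n + 1)).filter Nat.Prime, (1 : ℝ) / p := by
      refine Finset.sum_le_sum_of_subset_of_nonneg ?_ fun p _ _ => by positivity
      intro p hp
      rw [Nat.mem_primesBelow] at hp
      rw [Finset.mem_filter, Finset.mem_Icc]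
      exact ⟨⟨hp.2.one_lt.le, by omega⟩, hp.2⟩
    linarith
  have h5 : ∑ p ∈ Nat.primesBelow (n + 1), (1 / (p : ℝ)) ^ 2 ≤ S := by
    have h6 : ∀ p : ℕ, (1 / (p : ℝ)) ^ 2 = 1 / (p : ℝ) ^ 2 := fun p => by
      rw [div_pow, one_pow]
    simp only [h6]
    exact hs.sum_le_tsum _ fun p _ => by positivity
  have h7 : Real.log (n + 1 : ℕ) ≤ 2 * Real.log n := by
    have h8 : ((n + 1 : ℕ) : ℝ) ≤ (n : ℝ) ^ 2 := by
      push_cast
      nlinarith
    have h9 := Real.log_le_log (by positivity) h8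
    rwa [Real.log_pow, Nat.cast_ofNat] at h9
  have h8 : 0 < Real.log (n + 1 : ℕ) := by
    refine Real.log_pos ?_
    push_cast
    linarith
  have h9 : Real.log (Real.log (n + 1 : ℕ)) ≤ Real.log (2 * Real.log n) := Real.log_le_log h8 h7
  have h10 : Real.exp (-(C + 2 * S)) / 2 / Real.log n
      = Real.exp (-(C + 2 * S) - Real.log (2 * Real.log n)) := by
    rw [Real.exp_sub, Real.exp_log (by positivity)]
    field_simp
  rw [h10]
  refine Real.exp_le_exp.mpr ?_
  rw [Finset.sum_neg_distrib, Finset.sum_add_distrib, ← Finset.mul_sum]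
  linarith

theorem loglog_step {a : ℕ} (ha : 2 ≤ a) :
    Real.log (Real.log ((a + 1 : ℕ) : ℝ)) - Real.log (Real.log a) ≤ 1 / (Real.log a * a) := by
  have ha2 : (2 : ℝ) ≤ a := by exact_mod_cast ha
  have ha0 : (0 : ℝ) < a := by linarith
  have hl : 0 < Real.log a := Real.log_pos (by linarith)
  have hl1 : 0 < Real.log ((a + 1 : ℕ) : ℝ) := Real.log_pos (by push_cast; linarith)
  rw [← Real.log_div hl1.ne' hl.ne']
  refine (Real.log_le_sub_one_of_pos (by positivity)).trans ?_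
  have h1 : Real.log ((a + 1 : ℕ) : ℝ) ≤ Real.log a + 1 / a := by
    have h2 : ((a + 1 : ℕ) : ℝ) = a * (1 + 1 / a) := by
      push_cast
      field_simp
    rw [h2, Real.log_mul ha0.ne' (by positivity)]
    have := Real.log_le_sub_one_of_pos (show (0 : ℝ) < 1 + 1 / a by positivity)
    linarith
  have h3 : Real.log ((a + 1 : ℕ) : ℝ) / Real.log a - 1 =
      (Real.log ((a + 1 : ℕ) : ℝ) - Real.log a) / Real.log a := by
    field_simp
  rw [h3, one_div, mul_inv, div_eq_inv_mul]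
  refine mul_le_mul_of_nonneg_left ?_ (by positivity)
  rw [← one_div]
  linarith

theorem mu_lower : ∃ c : ℝ, 0 < c ∧ ∀ A : ℕ, 1 ≤ A →
    c * (Real.log (Real.log ((A + 1 : ℕ) : ℝ)) - Real.log (Real.log 2)) ≤ mu A := by
  obtain ⟨c, hc, hP⟩ := P_lower
  refine ⟨c, hc, fun A hA => ?_⟩
  induction A, hA using Nat.le_induction with
  | base =>
    have := mu_nonneg 1
    norm_num
    exact this
  | succ a ha ih =>
    have h1 := loglog_step (a := a + 1) (by omega)
    have h2 := hP (a + 1) (by omega)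
    have h3 : mu (a + 1) = mu a + w (a + 1) := by
      unfold mu
      rw [sum_Icc_succ_top (by omega : 1 ≤ a + 1)]
    have h4 : c * (1 / (Real.log ((a + 1 : ℕ) : ℝ) * ((a + 1 : ℕ) : ℝ))) ≤ w (a + 1) := by
      unfold w
      have ha0 : (0 : ℝ) < ((a + 1 : ℕ) : ℝ) := by positivity
      rw [le_div_iff₀ ha0]
      refine le_trans (le_of_eq ?_) h2
      have hl : 0 < Real.log ((a + 1 : ℕ) : ℝ) :=
        Real.log_pos (by exact_mod_cast (by omega : 1 < a + 1))
      field_simp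
    have h5 := mul_le_mul_of_nonneg_left h1 hc.le
    rw [h3]
    have h6 : c * (Real.log (Real.log ((a + 1 + 1 : ℕ) : ℝ)) - Real.log (Real.log 2)) =
      c * (Real.log (Real.log ((a + 1 : ℕ) : ℝ)) - Real.log (Real.log 2)) +
      c * (Real.log (Real.log ((a + 1 + 1 : ℕ) : ℝ)) - Real.log (Real.log ((a + 1 : ℕ) : ℝ))) := by
      ring
    rw [h6]
    linarith

theorem mu_tendsto : Tendsto mu atTop atTop := by
  obtain ⟨c, hc, h⟩ := mu_lower
  have h1 : Tendsto (fun A : ℕ => c * (Real.log (Real.log ((A + 1 : ℕ) : ℝ)) -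
      Real.log (Real.log 2))) atTop atTop := by
    refine Tendsto.const_mul_atTop hc (tendsto_atTop_add_const_right _ _ ?_)
    exact Real.tendsto_log_atTop.comp (Real.tendsto_log_atTop.comp
      (tendsto_natCast_atTop_atTop.comp (tendsto_add_atTop_nat 1)))
  refine tendsto_atTop_mono' _ ?_ h1
  filter_upwards [eventually_ge_atTop 1] with A hA
  exact h A hA

/-- for every `C`, almost no `n` satisfy `X A n ≤ C` when `A` is large -/
theorem density (C ε : ℝ) (hε : 0 < ε) : ∃ A : ℕ, ∃ N₀ : ℕ, ∀ N : ℕ, N₀ ≤ N →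
    (((range N).filter (fun n => X A n ≤ C)).card : ℝ) ≤ ε * N := by
  obtain ⟨A, hA⟩ := (mu_tendsto.eventually_ge_atTop (C + 1 + 4 / ε)).exists
  have h4 : 0 < 4 / ε := by positivity
  refine ⟨A, Q A, fun N hN => ?_⟩
  have hNQ : (Q A : ℝ) ≤ N := by exact_mod_cast hN
  have h1 := count_bound (A := A) (N := N) (C := C) (by linarith)
  have h2 : 4 / ε ≤ (mu A - C) ^ 2 := by nlinarith
  have h3 : (((range N).filter (fun n => X A n ≤ C)).card : ℝ) * (4 / ε) ≤ 4 * N := by
    have : (((range N).filter (fun n => X A n ≤ C)).card : ℝ) * (4 / ε) ≤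
        (((range N).filter (fun n => X A n ≤ C)).card : ℝ) * (mu A - C) ^ 2 :=
      mul_le_mul_of_nonneg_left h2 (Nat.cast_nonneg _)
    linarith
  have h5 : (((range N).filter (fun n => X A n ≤ C)).card : ℝ) =
      ((((range N).filter (fun n => X A n ≤ C)).card : ℝ) * (4 / ε)) * (ε / 4) := by
    field_simp
  rw [h5]
  calc _ ≤ (4 * N) * (ε / 4) := mul_le_mul_of_nonneg_right h3 (by positivity)
    _ = ε * N := by ring

end Pool.Agent.TH437.GR
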