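import Pool.Agent.TH437.GR.Var2

/-!
# Choice of the parameters
-/

set_option autoImplicit false

namespace Pool.Agent.TH437.GR

open Finset Filter

theorem LL_le {A : ℕ} : LL A ≤ 1 + Real.log A := by
  have h := harmonic_le_one_add_log A
  have h2 : LL A = (harmonic A : ℝ) := by
    unfold LL
    rw [harmonic_eq_sum_Icc]; push_cast; simp [one_div]
  rw [h2]
  exact h

theorem param : ∃ C : ℝ, 0 < C ∧ ∀ A N : ℕ, 16 ≤ A →
    C * (Real.log A * Real.log (Real.log A)) ≤ Real.log N → ∃ k, er A k N * LL A ^ 2 ≤ N := by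
  obtain ⟨C₀, hC₀⟩ := Pool.Agent.Helper256.KM.mertens_inv
  set C' := |C₀| with hC'
  have hC'0 : 0 ≤ C' := abs_nonneg _
  set E := Real.exp 2 with hE
  have hE0 : 0 < E := Real.exp_pos _
  set D := 2 * E + 2 * E * C' + 5 with hD
  have hD0 : 0 < D := by positivity
  refine ⟨D + 14, by positivity, ?_⟩
  intro A N hA hN
  have hAr : (16 : ℝ) ≤ A := by exact_mod_cast hA
  set l := Real.log A with hl
  set m := Real.log l with hm
  have hl1 : Real.exp 1 ≤ l := by
    have h1 : Real.log 16 ≤ l := Real.log_le_log (by norm_num) hAr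
    have h2 : Real.log 16 = 4 * Real.log 2 := by
      rw [show (16 : ℝ) = 2 ^ 4 by norm_num, Real.log_pow]
      norm_num
    have h3 := Real.log_two_gt_d9
    have h4 := Real.exp_one_lt_d9
    linarith
  have hl2 : 1 ≤ l := by
    have := Real.add_one_le_exp (1 : ℝ)
    linarith
  have hl0 : 0 < l := by linarith
  have hm1 : 1 ≤ m := by
    have := Real.log_le_log (Real.exp_pos 1) hl1
    rwa [Real.log_exp] at this
  -- the sum over the primes
  set S := ∑ p ∈ Nat.primesBelow (A + 1), 2 / (p : ℝ) with hS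
  have hS0 : 0 ≤ S := sum_nonneg fun p _ => by positivity
  have hSle : S ≤ 2 * (m + C') := by
    have h1 := (abs_le.1 (hC₀ A (by omega))).2
    have h2 : S = 2 * ∑ p ∈ (Finset.Icc 1 A).filter Nat.Prime, (1 : ℝ) / p := by
      rw [mul_sum, hS]
      have : Nat.primesBelow (A + 1) = (Finset.Icc 1 A).filter Nat.Prime := by
        ext p
        rw [Nat.mem_primesBelow, mem_filter, mem_Icc]
        constructor
        · rintro ⟨h1, h2⟩
          exact ⟨⟨h2.one_lt.le, by omega⟩, h2⟩
        · rintro ⟨⟨h1, h2⟩, h3⟩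
          exact ⟨by omega, h3⟩
      rw [this]
      refine sum_congr rfl fun p _ => ?_
      ring
    have h3 : C₀ ≤ C' := le_abs_self _
    rw [h2]
    linarith
  -- the harmonic sum
  set H := 1 + l with hH
  have hH0 : 0 < H := by linarith
  have hLL : LL A ≤ H := LL_le
  have hlogH : Real.log H ≤ 2 * m := by
    have h1 : H ≤ l * Real.exp 1 := by
      have := Real.add_one_le_exp (1 : ℝ)
      nlinarith
    have h2 := Real.log_le_log hH0 h1
    rw [Real.log_mul hl0.ne' (Real.exp_pos 1).ne', Real.log_exp] at h2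
    linarith
  have hlogH0 : 0 ≤ Real.log H := Real.log_nonneg (by linarith)
  set B := E * S + 2 * Real.log H + 1 with hB
  have hB0 : 0 ≤ B := by positivity
  have hBle : B ≤ D * m := by
    have h1 : E * S ≤ E * (2 * (m + C')) := mul_le_mul_of_nonneg_left hSle hE0.le
    have h2 : E * (2 * (m + C')) ≤ (2 * E + 2 * E * C') * m := by
      have : 2 * E * C' ≤ 2 * E * C' * m := le_mul_of_one_le_right (by positivity) hm1
      linarith
    have h3 : D * m = (2 * E + 2 * E * C') * m + 5 * m := by rw [hD]; ring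
    rw [h3]
    linarith
  set k := ⌈B / 4⌉₊ with hk
  have hk1 : B / 4 ≤ k := Nat.le_ceil _
  have hk2 : (k : ℝ) < B / 4 + 1 := Nat.ceil_lt_add_one (by positivity)
  refine ⟨k, ?_⟩
  have hN1 : 1 ≤ N := by
    rcases Nat.eq_zero_or_pos N with h | h
    · rw [h] at hN
      have : 0 < (D + 14) * (l * m) := by positivity
      simp at hN
      linarith
    · exact h
  have hNr : (0 : ℝ) < N := by exact_mod_cast hN1
  have hLL2 : LL A ^ 2 ≤ H ^ 2 := pow_le_pow_left₀ (LL_nonneg A) hLL 2
  refine (mul_le_mul_of_nonneg_left hLL2 (er_nonneg A k N)).trans ?_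
  unfold er
  rw [← hS, ← hE, add_mul]
  have h1 : N * Real.exp (-(2 * (2 * k + 1 : ℕ)) + E * S) * H ^ 2 ≤ N / 2 := by
    have h2 : -(2 * ((2 * k + 1 : ℕ) : ℝ)) + E * S ≤ -(2 * Real.log H) - 1 := by
      push_cast
      linarith
    have h3 : Real.exp (-(2 * (2 * k + 1 : ℕ)) + E * S) ≤ Real.exp (-1) / H ^ 2 := by
      refine (Real.exp_le_exp.2 h2).trans (le_of_eq ?_)
      have h4 : H ^ 2 = Real.exp (2 * Real.log H) := by
        rw [two_mul, Real.exp_add, Real.exp_log hH0]
        ring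
      rw [h4, ← Real.exp_sub]
      congr 1
      ring
    have h5 : Real.exp (-1) ≤ 1 / 2 := by
      rw [Real.exp_neg, ← one_div]
      refine one_div_le_one_div_of_le (by norm_num) ?_
      have := Real.add_one_le_exp (1 : ℝ)
      linarith
    calc N * Real.exp (-(2 * (2 * k + 1 : ℕ)) + E * S) * H ^ 2
        ≤ N * (Real.exp (-1) / H ^ 2) * H ^ 2 := by gcongr
      _ = N * Real.exp (-1) := by field_simp
      _ ≤ N * (1 / 2) := by gcongr
      _ = N / 2 := by ring
  have h2 : E * (A + 1) ^ (2 * k + 1) * H ^ 2 ≤ N / 2 := by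
    have hx : 0 < 2 * (E * (A + 1) ^ (2 * k + 1) * H ^ 2) := by positivity
    have h3 : Real.log (2 * (E * (A + 1) ^ (2 * k + 1) * H ^ 2)) ≤ Real.log N := by
      refine le_trans ?_ hN
      have hA0 : (0 : ℝ) < (A : ℝ) + 1 := by positivity
      rw [Real.log_mul (by norm_num) (by positivity), Real.log_mul (by positivity) (by positivity),
        Real.log_mul (by positivity) (by positivity), hE, Real.log_exp, Real.log_pow, Real.log_pow]
      have h4 : Real.log ((A : ℝ) + 1) ≤ 2 * l := by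
        have h5 : (A : ℝ) + 1 ≤ (A : ℝ) ^ 2 := by nlinarith
        have h6 := Real.log_le_log hA0 h5
        rwa [Real.log_pow, Nat.cast_ofNat] at h6
      have h5 : ((2 * k + 1 : ℕ) : ℝ) ≤ (D / 2 + 3) * m := by
        have e1 : (D / 2 + 3) * m = D * m / 2 + 3 * m := by ring
        rw [e1]
        push_cast
        linarith
      have h6 : 0 ≤ Real.log ((A : ℝ) + 1) := Real.log_nonneg (by linarith)
      have h7 : ((2 * k + 1 : ℕ) : ℝ) * Real.log ((A : ℝ) + 1) ≤ (D / 2 + 3) * m * (2 * l) :=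
        mul_le_mul h5 h4 h6 (by positivity)
      have h8 : Real.log 2 ≤ 1 := by
        have := Real.log_two_lt_d9
        linarith
      have h10 : m ≤ l * m := le_mul_of_one_le_left (by linarith) hl2
      have e2 : ((2 : ℕ) : ℝ) = 2 := by norm_num
      have e3 : (D / 2 + 3) * m * (2 * l) = D * (l * m) + 6 * (l * m) := by ring
      have e4 : (D + 14) * (l * m) = D * (l * m) + 14 * (l * m) := by ring
      rw [e2, e4]
      rw [e3] at h7
      linarith
    have h4 : 2 * (E * (A + 1) ^ (2 * k + 1) * H ^ 2) ≤ N := (Real.log_le_log_iff hx hNr).1 h3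
    linarith
  linarith

theorem choose_A {δ : ℝ} (h0 : 0 < δ) (h1 : δ < 1) : ∀ᶠ N : ℕ in atTop, ∃ A k : ℕ, 16 ≤ A ∧
    er A k N * LL A ^ 2 ≤ N ∧
    (1 - δ) * Real.log (Real.log N) ≤ Real.log (Real.log ((A + 1 : ℕ) : ℝ)) ∧
    Real.log (Real.log A) ≤ Real.log (Real.log N) ∧ (A : ℝ) ^ 2 ≤ N := by
  obtain ⟨C, hC, hpar⟩ := param
  have hu : Tendsto (fun N : ℕ => Real.log N) atTop atTop :=
    Real.tendsto_log_atTop.comp tendsto_natCast_atTop_atTop
  have e1 : ∀ᶠ u : ℝ in atTop, Real.log u ≤ 1 / C * u ^ δ := by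
    have h := (isLittleO_log_rpow_atTop h0).def (show (0 : ℝ) < 1 / C by positivity)
    filter_upwards [h, eventually_ge_atTop (1 : ℝ)] with u hu hu1
    rw [Real.norm_eq_abs, Real.norm_eq_abs, abs_of_nonneg (Real.log_nonneg hu1),
      abs_of_nonneg (Real.rpow_nonneg (by linarith) _)] at hu
    exact hu
  have e2 : ∀ᶠ u : ℝ in atTop, 2 ≤ u ^ δ := (tendsto_rpow_atTop h0).eventually_ge_atTop 2
  have e3 : ∀ᶠ u : ℝ in atTop, 17 ≤ u ^ (1 - δ) :=
    (tendsto_rpow_atTop (by linarith)).eventually_ge_atTop 17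
  filter_upwards [hu.eventually e1, hu.eventually e2, hu.eventually e3,
    hu.eventually (eventually_ge_atTop (1 : ℝ)), eventually_ge_atTop 1] with N h2 h3 h4 h5 h6
  set u := Real.log N with hu'
  set y := u ^ (1 - δ) with hy
  have hu0 : 0 < u := by linarith
  have hy0 : 0 < y := Real.rpow_pos_of_pos hu0 _
  have hNr : (0 : ℝ) < N := by exact_mod_cast h6
  set A := ⌊Real.exp y⌋₊ with hA
  have hA1 : (A : ℝ) ≤ Real.exp y := Nat.floor_le (Real.exp_pos _).le
  have hA2 : Real.exp y < (A : ℝ) + 1 := Nat.lt_floor_add_one _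
  have hA16 : 16 ≤ A := by
    refine Nat.le_floor ?_
    have := Real.add_one_le_exp y
    push_cast
    linarith
  have hAr : (16 : ℝ) ≤ A := by exact_mod_cast hA16
  have hlA : Real.log A ≤ y := by
    have := Real.log_le_log (by linarith) hA1
    rwa [Real.log_exp] at this
  have hlA1 : 1 ≤ Real.log A := by
    have h7 : Real.exp 1 ≤ A := by
      have := Real.exp_one_lt_d9
      linarith
    have := Real.log_le_log (Real.exp_pos 1) h7
    rwa [Real.log_exp] at this
  have hly : Real.log y = (1 - δ) * Real.log u := by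
    rw [hy, Real.log_rpow hu0]
  have hlu : 0 ≤ Real.log u := Real.log_nonneg h5
  have hllA : Real.log (Real.log A) ≤ Real.log u := by
    have h7 := Real.log_le_log (by linarith) hlA
    rw [hly] at h7
    nlinarith
  have hllA0 : 0 ≤ Real.log (Real.log A) := Real.log_nonneg hlA1
  have hyu : y * u ^ δ = u := by
    rw [hy, ← Real.rpow_add hu0]
    simp
  obtain ⟨k, hk⟩ := hpar A N hA16 (by
    calc C * (Real.log A * Real.log (Real.log A)) ≤ C * (y * (1 / C * u ^ δ)) := by
          refine mul_le_mul_of_nonneg_left ?_ hC.le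
          exact mul_le_mul hlA (hllA.trans h2) hllA0 hy0.le
      _ = y * u ^ δ := by field_simp
      _ = u := hyu)
  refine ⟨A, k, hA16, hk, ?_, hllA, ?_⟩
  · rw [← hly]
    refine Real.log_le_log hy0 ?_
    rw [← Real.log_exp y]
    refine Real.log_le_log (Real.exp_pos _) ?_
    push_cast
    exact hA2.le
  · have h7 : (A : ℝ) ^ 2 ≤ (Real.exp y) ^ 2 := pow_le_pow_left₀ (by linarith) hA1 2
    refine h7.trans ?_
    rw [← Real.exp_nat_mul, ← Real.log_le_log_iff (Real.exp_pos _) hNr, Real.log_exp]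
    push_cast
    nlinarith

end Pool.Agent.TH437.GR
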