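import Pool.Agent.TH437.GR.Param
import Pool.Agent.TH437.GR.Greedy
import Pool.Agent.H305R2.MertensE

/-!
# The mean with the sharp constant and the lower bound
-/

set_option autoImplicit false

namespace Pool.Agent.TH437.GR

open Finset Filter N435e839e

/-- the constant -/
noncomputable def gam : ℝ := Real.exp (-Real.eulerMascheroniConstant)

theorem gam_pos : 0 < gam := Real.exp_pos _

theorem P_tendsto : Tendsto (fun n : ℕ => P n * Real.log n) atTop (nhds gam) := by
  have h := Pool.Agent.H305R2.mertens_three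
  have h1 := h.inv₀ (Real.exp_pos _).ne'
  unfold gam
  rw [Real.exp_neg]
  refine h1.congr fun n => ?_
  unfold P
  have h2 : Nat.primesBelow (n + 1) = (Finset.Icc 1 n).filter Nat.Prime := by
    ext p
    rw [Nat.mem_primesBelow, mem_filter, mem_Icc]
    constructor
    · rintro ⟨h1, h2⟩
      exact ⟨⟨h2.one_lt.le, by omega⟩, h2⟩
    · rintro ⟨⟨h1, h2⟩, h3⟩
      exact ⟨by omega, h3⟩
  rw [h2, inv_div, prod_inv_distrib, div_inv_eq_mul, mul_comm]
  simp only [one_div]

theorem loglog_step' {a : ℕ} (ha : 2 ≤ a) :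
    1 / (Real.log ((a + 1 : ℕ) : ℝ) * ((a + 1 : ℕ) : ℝ)) ≤
      Real.log (Real.log ((a + 1 : ℕ) : ℝ)) - Real.log (Real.log a) := by
  have ha2 : (2 : ℝ) ≤ a := by exact_mod_cast ha
  have ha0 : (0 : ℝ) < a := by linarith
  have hl : 0 < Real.log a := Real.log_pos (by linarith)
  have hb0 : (0 : ℝ) < ((a + 1 : ℕ) : ℝ) := by positivity
  have hl1 : 0 < Real.log ((a + 1 : ℕ) : ℝ) := Real.log_pos (by push_cast; linarith)
  rw [← Real.log_div hl1.ne' hl.ne']
  have h1 := Real.one_sub_inv_le_log_of_pos (show (0 : ℝ) < Real.log ((a + 1 : ℕ) : ℝ) / Real.log a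
    by positivity)
  refine le_trans ?_ h1
  have h2 : Real.log a ≤ Real.log ((a + 1 : ℕ) : ℝ) - 1 / ((a + 1 : ℕ) : ℝ) := by
    have h3 := Real.one_sub_inv_le_log_of_pos (show (0 : ℝ) < ((a + 1 : ℕ) : ℝ) / a by positivity)
    rw [Real.log_div hb0.ne' ha0.ne', inv_div] at h3
    have h4 : 1 - (a : ℝ) / ((a + 1 : ℕ) : ℝ) = 1 / ((a + 1 : ℕ) : ℝ) := by
      push_cast
      field_simp
      ring
    linarith
  rw [inv_div]
  have h3 : 1 - Real.log a / Real.log ((a + 1 : ℕ) : ℝ) =
      (Real.log ((a + 1 : ℕ) : ℝ) - Real.log a) / Real.log ((a + 1 : ℕ) : ℝ) := by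
    field_simp
  rw [h3, one_div, mul_inv, mul_comm, div_eq_mul_inv]
  refine mul_le_mul_of_nonneg_right ?_ (by positivity)
  rw [← one_div]
  linarith

theorem loglog_mono {x y : ℝ} (hx : 1 < x) (hxy : x ≤ y) :
    Real.log (Real.log x) ≤ Real.log (Real.log y) :=
  Real.log_le_log (Real.log_pos hx) (Real.log_le_log (by linarith) hxy)

theorem mu_succ (a : ℕ) : mu (a + 1) = mu a + w (a + 1) := by
  unfold mu
  rw [sum_Icc_succ_top (by omega : 1 ≤ a + 1)]

theorem mu_lower' {c : ℝ} (hc0 : 0 < c) (hc : c < gam) : ∃ K : ℝ, ∀ A : ℕ, 1 ≤ A →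
    c * Real.log (Real.log ((A + 1 : ℕ) : ℝ)) - K ≤ mu A := by
  obtain ⟨b, hb⟩ := eventually_atTop.1 (P_tendsto.eventually (eventually_ge_nhds hc))
  set d := b + 2 with hd
  have key : ∀ A : ℕ, d ≤ A → c * (Real.log (Real.log ((A + 1 : ℕ) : ℝ)) -
      Real.log (Real.log ((d + 1 : ℕ) : ℝ))) ≤ mu A := by
    intro A hA
    induction A, hA using Nat.le_induction with
    | base => rw [sub_self, mul_zero]; exact mu_nonneg _
    | succ a ha ih =>
      have h1 := loglog_step (a := a + 1) (by omega)
      have h2 := hb (a + 1) (by omega)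
      have ha0 : (0 : ℝ) < ((a + 1 : ℕ) : ℝ) := by positivity
      have hl : 0 < Real.log ((a + 1 : ℕ) : ℝ) :=
        Real.log_pos (by exact_mod_cast (by omega : 1 < a + 1))
      have h4 : c * (1 / (Real.log ((a + 1 : ℕ) : ℝ) * ((a + 1 : ℕ) : ℝ))) ≤ w (a + 1) := by
        unfold w
        rw [le_div_iff₀ ha0]
        have h5 : c * (1 / (Real.log ((a + 1 : ℕ) : ℝ) * ((a + 1 : ℕ) : ℝ))) * ((a + 1 : ℕ) : ℝ) =
            c / Real.log ((a + 1 : ℕ) : ℝ) := by
          field_simp
        rw [h5, div_le_iff₀ hl]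
        exact h2
      have h5 := mul_le_mul_of_nonneg_left h1 hc0.le
      rw [mu_succ]
      linarith
  refine ⟨c * |Real.log (Real.log ((d + 1 : ℕ) : ℝ))|, fun A hA => ?_⟩
  have habs := le_abs_self (Real.log (Real.log ((d + 1 : ℕ) : ℝ)))
  have habs' := mul_le_mul_of_nonneg_left habs hc0.le
  rcases le_or_gt d A with h | h
  · have := key A h
    linarith
  · have h1 : Real.log (Real.log ((A + 1 : ℕ) : ℝ)) ≤ Real.log (Real.log ((d + 1 : ℕ) : ℝ)) :=
      loglog_mono (by exact_mod_cast (by omega : 1 < A + 1)) (by exact_mod_cast (by omega))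
    have h2 := mul_le_mul_of_nonneg_left h1 hc0.le
    have := mu_nonneg A
    linarith

theorem mu_mono {a b : ℕ} (h : a ≤ b) : mu a ≤ mu b := by
  unfold mu
  exact sum_le_sum_of_subset_of_nonneg (Icc_subset_Icc_right h) fun x _ _ => w_nonneg x

theorem mu_upper' {c : ℝ} (hc : gam < c) : ∃ K : ℝ, ∀ A : ℕ, 16 ≤ A →
    mu A ≤ c * Real.log (Real.log A) + K := by
  have hc0 : 0 < c := gam_pos.trans hc
  obtain ⟨b, hb⟩ := eventually_atTop.1 (P_tendsto.eventually (eventually_le_nhds hc))
  set d := b + 2 with hd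
  have key : ∀ A : ℕ, d ≤ A → mu A ≤ mu d + c * (Real.log (Real.log A) - Real.log (Real.log d)) := by
    intro A hA
    induction A, hA using Nat.le_induction with
    | base => rw [sub_self, mul_zero, add_zero]
    | succ a ha ih =>
      have h1 := loglog_step' (a := a) (by omega)
      have h2 := hb (a + 1) (by omega)
      have ha0 : (0 : ℝ) < ((a + 1 : ℕ) : ℝ) := by positivity
      have hl : 0 < Real.log ((a + 1 : ℕ) : ℝ) :=
        Real.log_pos (by exact_mod_cast (by omega : 1 < a + 1))
      have h4 : w (a + 1) ≤ c * (1 / (Real.log ((a + 1 : ℕ) : ℝ) * ((a + 1 : ℕ) : ℝ))) := by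
        unfold w
        rw [div_le_iff₀ ha0]
        have h5 : c * (1 / (Real.log ((a + 1 : ℕ) : ℝ) * ((a + 1 : ℕ) : ℝ))) * ((a + 1 : ℕ) : ℝ) =
            c / Real.log ((a + 1 : ℕ) : ℝ) := by
          field_simp
        rw [h5, le_div_iff₀ hl]
        exact h2
      have h5 := mul_le_mul_of_nonneg_left h1 hc0.le
      rw [mu_succ]
      linarith
  refine ⟨mu d + c * |Real.log (Real.log d)|, fun A hA => ?_⟩
  have habs := neg_abs_le (Real.log (Real.log d))
  have habs' := mul_le_mul_of_nonneg_left habs hc0.le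
  rcases le_or_gt d A with h | h
  · have := key A h
    linarith
  · have h1 := mu_mono h.le
    have hAr : (16 : ℝ) ≤ A := by exact_mod_cast hA
    have h2 : 0 ≤ Real.log (Real.log A) := by
      refine Real.log_nonneg ?_
      rw [Real.le_log_iff_exp_le (by linarith)]
      have := Real.exp_one_lt_d9
      linarith
    have h3 := mul_nonneg hc0.le h2
    have h4 := mul_nonneg hc0.le (abs_nonneg (Real.log (Real.log d)))
    linarith

theorem loglog_tendsto : Tendsto (fun N : ℕ => Real.log (Real.log N)) atTop atTop :=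
  Real.tendsto_log_atTop.comp (Real.tendsto_log_atTop.comp tendsto_natCast_atTop_atTop)

/-- lower bound: for `c < e^-γ` almost all `n` satisfy `S_2(n) > c log log n` -/
theorem lower (iz : Bool) {c : ℝ} (hc0 : 0 < c) (hc : c < gam) :
    Tendsto (fun N : ℕ => (((range N).filter
      (fun n => roughSum iz n ≤ c * Real.log (Real.log n))).card : ℝ) / N) atTop (nhds 0) := by
  set c₁ := (c + gam) / 2 with hc₁
  have hc1 : c < c₁ := by rw [hc₁]; linarith
  have hc1' : c₁ < gam := by rw [hc₁]; linarith
  have hc10 : 0 < c₁ := by linarith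
  set δ := (c₁ - c) / (2 * c₁) with hδ
  have hδ0 : 0 < δ := by rw [hδ]; apply div_pos <;> linarith
  have hδ1 : δ < 1 := by
    rw [hδ, div_lt_one (by linarith)]
    linarith
  have hc2 : c₁ * (1 - δ) = (c₁ + c) / 2 := by
    rw [hδ]
    field_simp
    ring
  obtain ⟨K, hK⟩ := mu_lower' hc10 hc1'
  set η := (c₁ - c) / 2 with hη
  have hη0 : 0 < η := by rw [hη]; linarith
  -- the bound
  have hbound : Tendsto (fun N : ℕ => 2 / Real.sqrt N +
      5 / (η * Real.log (Real.log N) - K) ^ 2) atTop (nhds 0) := by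
    have h1 : Tendsto (fun N : ℕ => 2 / Real.sqrt N) atTop (nhds 0) :=
      tendsto_const_nhds.div_atTop (Real.tendsto_sqrt_atTop.comp tendsto_natCast_atTop_atTop)
    have h2 : Tendsto (fun N : ℕ => (η * Real.log (Real.log N) - K) ^ 2) atTop atTop := by
      have h3 : Tendsto (fun N : ℕ => η * Real.log (Real.log N) - K) atTop atTop :=
        tendsto_atTop_add_const_right _ _ (loglog_tendsto.const_mul_atTop hη0)
      exact (tendsto_pow_atTop two_ne_zero).comp h3
    have h3 : Tendsto (fun N : ℕ => 5 / (η * Real.log (Real.log N) - K) ^ 2) atTop (nhds 0) :=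
      tendsto_const_nhds.div_atTop h2
    simpa using h1.add h3
  refine squeeze_zero' (Eventually.of_forall fun N => by positivity) ?_ hbound
  have hbig : ∀ᶠ N : ℕ in atTop, 0 < η * Real.log (Real.log N) - K := by
    have h3 : Tendsto (fun N : ℕ => η * Real.log (Real.log N) - K) atTop atTop :=
      tendsto_atTop_add_const_right _ _ (loglog_tendsto.const_mul_atTop hη0)
    exact h3.eventually_gt_atTop 0
  filter_upwards [choose_A hδ0 hδ1, hbig, eventually_ge_atTop 2] with N hN hpos hN2
  obtain ⟨A, k, hA16, her, hlo, _, hA2⟩ := hN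
  have hNr : (0 : ℝ) < N := by exact_mod_cast (by omega : 0 < N)
  have hmu : (η + c) * Real.log (Real.log N) - K ≤ mu A := by
    have h1 := hK A (by omega)
    have h2 := mul_le_mul_of_nonneg_left hlo hc10.le
    have h3 : c₁ * ((1 - δ) * Real.log (Real.log N)) = (η + c) * Real.log (Real.log N) := by
      rw [← mul_assoc, hc2, hη]
      ring
    linarith
  set C := c * Real.log (Real.log N) with hC
  have hCmu : η * Real.log (Real.log N) - K ≤ mu A - C := by
    rw [hC]
    have : (η + c) * Real.log (Real.log N) = η * Real.log (Real.log N) + c * Real.log (Real.log N) := by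
      ring
    linarith
  have hch := chebN her (C := C) (by linarith)
  have hcard : (((range N).filter (fun n => X A n ≤ C)).card : ℝ) ≤
      5 * N / (η * Real.log (Real.log N) - K) ^ 2 := by
    rw [le_div_iff₀ (by positivity)]
    refine le_trans ?_ hch
    refine mul_le_mul_of_nonneg_left ?_ (Nat.cast_nonneg _)
    exact pow_le_pow_left₀ hpos.le hCmu 2
  have h1 : ((range N).filter (fun n => roughSum iz n ≤ c * Real.log (Real.log n))).card ≤
      (A + 1) + ((range N).filter (fun n => X A n ≤ C)).card := by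
    calc ((range N).filter (fun n => roughSum iz n ≤ c * Real.log (Real.log n))).card
        ≤ (range (A + 1) ∪ (range N).filter (fun n => X A n ≤ C)).card := by
          refine card_le_card fun n hn => ?_
          rw [mem_filter, mem_range] at hn
          rw [mem_union]
          by_cases hnA : A < n
          · right
            rw [mem_filter, mem_range]
            refine ⟨hn.1, (X_le iz hnA).trans (hn.2.trans ?_)⟩
            rw [hC]
            refine mul_le_mul_of_nonneg_left ?_ hc0.le
            exact loglog_mono (by exact_mod_cast (by omega : 1 < n)) (by exact_mod_cast hn.1.le)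
          · left
            rw [mem_range]
            omega
      _ ≤ (range (A + 1)).card + _ := card_union_le _ _
      _ = _ := by rw [card_range]
  have h2 : (((range N).filter (fun n => roughSum iz n ≤ c * Real.log (Real.log n))).card : ℝ) ≤
      (A + 1) + 5 * N / (η * Real.log (Real.log N) - K) ^ 2 := by
    have h3 : (((range N).filter (fun n => roughSum iz n ≤ c * Real.log (Real.log n))).card : ℝ) ≤
        (((A + 1) + ((range N).filter (fun n => X A n ≤ C)).card : ℕ) : ℝ) := by exact_mod_cast h1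
    push_cast at h3
    linarith
  have hAr : (16 : ℝ) ≤ A := by exact_mod_cast hA16
  have h3 : (A : ℝ) + 1 ≤ 2 * Real.sqrt N := by
    have : (A : ℝ) ≤ Real.sqrt N := Real.le_sqrt_of_sq_le hA2
    linarith
  rw [div_le_iff₀ hNr]
  have h4 : (2 / Real.sqrt N + 5 / (η * Real.log (Real.log N) - K) ^ 2) * N =
      2 * Real.sqrt N + 5 * N / (η * Real.log (Real.log N) - K) ^ 2 := by
    have h5 : 2 / Real.sqrt N * N = 2 * Real.sqrt N := by
      have h6 : (N : ℝ) = Real.sqrt N * Real.sqrt N := (Real.mul_self_sqrt hNr.le).symm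
      have h7 : 0 < Real.sqrt N := Real.sqrt_pos.2 hNr
      rw [div_mul_eq_mul_div, div_eq_iff h7.ne']
      nlinarith
    rw [add_mul, h5]
    ring
  rw [h4]
  linarith

end Pool.Agent.TH437.GR
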