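import Pool.Agent.TH437.GR.Sharp
import Pool.Agent.TH437.GR.Small

/-!
# The upper bound and the normal order
-/

set_option autoImplicit false

namespace Pool.Agent.TH437.GR

open Finset Filter N435e839e

theorem F_one {A a n : ℕ} (han : a ≤ n) (hr : Rough n a) : F A a n = 1 := by
  unfold F
  refine prod_eq_one fun p hp => ?_
  have hp' := Nat.prime_of_mem_primesBelow hp
  unfold ind dl
  by_cases h : p ≤ a
  · have h1 : ¬ n % p = a % p := by
      intro h2
      exact hr ⟨p, hp', h, (Nat.modEq_iff_dvd' han).1 h2.symm⟩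
    rw [if_pos h, if_neg h1, sub_zero]
  · rw [if_neg h]

open Classical in
/-- the contribution of the large terms -/
noncomputable def tail (A n : ℕ) : ℝ := ∑ a ∈ (Ioo A n).filter (Rough n), (1 : ℝ) / a

theorem tail_nonneg (A n : ℕ) : 0 ≤ tail A n := by
  unfold tail
  positivity

theorem roughSum_upper (iz : Bool) (A n : ℕ) : roughSum iz n ≤ X A n + tail A n := by
  classical
  unfold roughSum
  calc ∑ a ∈ (selected iz n).filter (Rough n), (1 : ℝ) / (a : ℝ)
      ≤ ∑ a ∈ (Icc 1 A).filter (fun a => a < n ∧ Rough n a) ∪ (Ioo A n).filter (Rough n),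
          (1 : ℝ) / a := by
        refine sum_le_sum_of_subset_of_nonneg ?_ fun _ _ _ => by positivity
        intro a ha
        rw [mem_filter] at ha
        obtain ⟨h1, h2⟩ := ha
        unfold selected at h1
        rw [mem_filter] at h1
        rw [mem_union, mem_filter, mem_filter, mem_Icc, mem_Ioo]
        by_cases h : a ≤ A
        · left
          exact ⟨⟨h1.2.1, h⟩, h1.2.2, h2⟩
        · right
          exact ⟨⟨by omega, h1.2.2⟩, h2⟩
    _ ≤ ∑ a ∈ (Icc 1 A).filter (fun a => a < n ∧ Rough n a), (1 : ℝ) / a + tail A n := by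
        unfold tail
        have := sum_union_inter (s₁ := (Icc 1 A).filter (fun a => a < n ∧ Rough n a))
          (s₂ := (Ioo A n).filter (Rough n)) (f := fun a : ℕ => (1 : ℝ) / a)
        have h0 : 0 ≤ ∑ a ∈ (Icc 1 A).filter (fun a => a < n ∧ Rough n a) ∩
          (Ioo A n).filter (Rough n), (1 : ℝ) / (a : ℝ) := by positivity
        linarith
    _ ≤ X A n + tail A n := by
        refine add_le_add ?_ le_rfl
        unfold X
        rw [sum_filter]
        refine sum_le_sum fun a ha => ?_
        split_ifs with h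
        · rw [F_one h.1.le h.2]
        · exact div_nonneg (F_nonneg A a n) (Nat.cast_nonneg _)

theorem log_tele {A : ℕ} (hA : 2 ≤ A) (M : ℕ) (hM : A ≤ M) :
    ∑ a ∈ Ioc A M, 1 / (Real.log a * a) ≤ Real.log (Real.log M) - Real.log (Real.log A) := by
  induction M, hM using Nat.le_induction with
  | base => simp
  | succ M hM ih =>
    rw [sum_Ioc_succ_top hM]
    have := loglog_step' (a := M) (by omega)
    linarith

theorem sum_tail {A N : ℕ} (hA : 2 ≤ A) (hAN : A < N) :
    ∑ n ∈ range N, tail A n ≤
      25 * N * (Real.log (Real.log N) - Real.log (Real.log A)) := by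
  classical
  have h1 : ∀ n ∈ range N, tail A n ≤
      ∑ a ∈ Ioo A N, if a < n ∧ Rough n a then (1 : ℝ) / a else 0 := by
    intro n hn
    rw [mem_range] at hn
    unfold tail
    rw [← sum_filter]
    refine sum_le_sum_of_subset_of_nonneg ?_ fun _ _ _ => by positivity
    intro a ha
    rw [mem_filter, mem_Ioo] at ha ⊢
    exact ⟨⟨ha.1.1, by omega⟩, ha.1.2, ha.2⟩
  refine (sum_le_sum h1).trans ?_
  rw [sum_comm]
  have h2 : ∀ a ∈ Ioo A N, ∑ n ∈ range N, (if a < n ∧ Rough n a then (1 : ℝ) / a else 0) ≤
      25 * N * (1 / (Real.log a * a)) := by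
    intro a ha
    rw [mem_Ioo] at ha
    rw [← sum_filter, sum_const, nsmul_eq_mul]
    have h3 : ((range N).filter (fun n => a < n ∧ Rough n a)).card ≤
        (Pool.Agent.TH437.GRS.roughSet N (a + 1)).card := by
      refine card_le_card_of_injOn (fun n => n - a) ?_ ?_
      · intro n hn
        rw [mem_coe, mem_filter, mem_range] at hn
        rw [mem_coe, Pool.Agent.TH437.GRS.mem_roughSet]
        refine ⟨⟨?_, ?_⟩, ?_⟩
        · show 1 ≤ n - a
          omega
        · show n - a ≤ N
          omega
        intro q hq hd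
        by_contra hlt
        exact hn.2.2 ⟨q, hq, by omega, hd⟩
      · intro n hn m hm h
        rw [mem_coe, mem_filter] at hn hm
        simp only at h
        omega
    have h4 := Pool.Agent.TH437.GRS.rough_card (N := N) (z := a + 1) (by omega) (by omega)
    have ha0 : (0 : ℝ) < a := by exact_mod_cast (by omega : 0 < a)
    have hl : 0 < Real.log a := Real.log_pos (by exact_mod_cast (by omega : 1 < a))
    have hl2 : Real.log a ≤ Real.log ((a + 1 : ℕ) : ℝ) :=
      Real.log_le_log ha0 (by push_cast; linarith)
    have h5 : (((range N).filter (fun n => a < n ∧ Rough n a)).card : ℝ) * Real.log a ≤ 25 * N := by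
      have h6 : (((range N).filter (fun n => a < n ∧ Rough n a)).card : ℝ) ≤
          ((Pool.Agent.TH437.GRS.roughSet N (a + 1)).card : ℝ) := by exact_mod_cast h3
      calc (((range N).filter (fun n => a < n ∧ Rough n a)).card : ℝ) * Real.log a
          ≤ ((Pool.Agent.TH437.GRS.roughSet N (a + 1)).card : ℝ) * Real.log ((a + 1 : ℕ) : ℝ) :=
            mul_le_mul h6 hl2 hl.le (Nat.cast_nonneg _)
        _ ≤ 25 * N := h4
    have h6 : (((range N).filter (fun n => a < n ∧ Rough n a)).card : ℝ) * (1 / a) =
        (((range N).filter (fun n => a < n ∧ Rough n a)).card : ℝ) * Real.log a *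
          (1 / (Real.log a * a)) := by
      field_simp
    rw [h6]
    exact mul_le_mul_of_nonneg_right h5 (by positivity)
  refine (sum_le_sum h2).trans ?_
  rw [← mul_sum]
  refine mul_le_mul_of_nonneg_left ?_ (by positivity)
  have h3 : Ioo A N = Ioc A (N - 1) := by
    ext x
    rw [mem_Ioo, mem_Ioc]
    omega
  rw [h3]
  refine (log_tele hA (N - 1) (by omega)).trans ?_
  have h4 : Real.log (Real.log ((N - 1 : ℕ) : ℝ)) ≤ Real.log (Real.log N) :=
    loglog_mono (by exact_mod_cast (by omega : 1 < N - 1)) (by exact_mod_cast Nat.sub_le N 1)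
  linarith

theorem proper_range (iz : Bool) (N : ℕ) : ∑ n ∈ range N, properSum iz n ≤ 222 * N := by
  classical
  have h := Pool.Agent.TH437.GRS.total iz N
  have h0 : properSum iz 0 = 0 := by
    unfold properSum selected
    refine sum_eq_zero fun a ha => ?_
    rw [mem_filter, mem_filter] at ha
    omega
  have h1 : ∀ n, 0 ≤ properSum iz n := fun n => by
    unfold properSum
    positivity
  refine le_trans ?_ h
  rcases Nat.eq_zero_or_pos N with hN | hN
  · subst hN
    simp
  · have h2 : range N = insert 0 (Icc 1 (N - 1)) := by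
      ext x
      rw [mem_range, mem_insert, mem_Icc]
      omega
    rw [h2, sum_insert (by simp), h0, zero_add]
    exact sum_le_sum_of_subset_of_nonneg (Icc_subset_Icc_right (by omega)) fun x _ _ => h1 x

theorem total_split (iz : Bool) (n : ℕ) : totalSum iz n = roughSum iz n + properSum iz n := by
  classical
  unfold totalSum roughSum properSum
  rw [add_comm]
  have h := sum_filter_add_sum_filter_not (selected iz n) (Proper n) (fun a => (1 : ℝ) / (a : ℝ))
  refine h.symm.trans ?_
  congr 1
  refine sum_congr ?_ (fun _ _ => rfl)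
  ext a
  rw [mem_filter, mem_filter]
  rfl

theorem markov (f : ℕ → ℝ) (hf : ∀ n, 0 ≤ f n) (N : ℕ) (t : ℝ) :
    (((range N).filter (fun n => t ≤ f n)).card : ℝ) * t ≤ ∑ n ∈ range N, f n := by
  calc (((range N).filter (fun n => t ≤ f n)).card : ℝ) * t
      = ∑ n ∈ (range N).filter (fun n => t ≤ f n), t := by rw [sum_const, nsmul_eq_mul]
    _ ≤ ∑ n ∈ (range N).filter (fun n => t ≤ f n), f n :=
        sum_le_sum fun n hn => (mem_filter.1 hn).2
    _ ≤ ∑ n ∈ range N, f n :=
        sum_le_sum_of_subset_of_nonneg (filter_subset _ _) fun n _ _ => hf n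

set_option maxHeartbeats 1000000 in
/-- upper bound: for `c > e^-γ` almost all `n` satisfy `S(n) < c log log n` -/
theorem upper (iz : Bool) {c : ℝ} (hc : gam < c) :
    Tendsto (fun N : ℕ => (((range N).filter
      (fun n : ℕ => c * Real.log (Real.log n) ≤ totalSum iz n)).card : ℝ) / N) atTop (nhds 0) := by
  have hg := gam_pos
  have hc0 : 0 < c := hg.trans hc
  set c₁ := (c + gam) / 2 with hc₁
  have hc1 : c₁ < c := by rw [hc₁]; linarith
  have hc1' : gam < c₁ := by rw [hc₁]; linarith
  have hc10 : 0 < c₁ := by linarith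
  set η := (c - c₁) / 4 with hη
  have hη0 : 0 < η := by rw [hη]; linarith
  obtain ⟨K, hK⟩ := mu_upper' hc1'
  rw [Metric.tendsto_atTop']
  intro ε hε
  set δ := min (1 / 2) (ε * η / 100) with hδ
  have hδ0 : 0 < δ := lt_min (by norm_num) (by positivity)
  have hδ1 : δ < 1 := lt_of_le_of_lt (min_le_left _ _) (by norm_num)
  have hδ2 : 25 * δ / η ≤ ε / 4 := by
    have h1 : δ ≤ ε * η / 100 := min_le_right _ _
    rw [div_le_iff₀ hη0]
    linarith
  -- the vanishing terms
  have hL := loglog_tendsto
  have hvan : Tendsto (fun N : ℕ => 2 / Real.sqrt N +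
      (5 / (η * Real.log (Real.log N) - K) ^ 2 + 247 / (η * Real.log (Real.log N)))) atTop
      (nhds 0) := by
    have h1 : Tendsto (fun N : ℕ => 2 / Real.sqrt N) atTop (nhds 0) :=
      tendsto_const_nhds.div_atTop (Real.tendsto_sqrt_atTop.comp tendsto_natCast_atTop_atTop)
    have h2 : Tendsto (fun N : ℕ => (η * Real.log (Real.log N) - K) ^ 2) atTop atTop :=
      (tendsto_pow_atTop two_ne_zero).comp
        (tendsto_atTop_add_const_right _ _ (hL.const_mul_atTop hη0))
    have h3 : Tendsto (fun N : ℕ => 5 / (η * Real.log (Real.log N) - K) ^ 2) atTop (nhds 0) :=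
      tendsto_const_nhds.div_atTop h2
    have h4 : Tendsto (fun N : ℕ => 247 / (η * Real.log (Real.log N))) atTop (nhds 0) :=
      tendsto_const_nhds.div_atTop (hL.const_mul_atTop hη0)
    simpa using h1.add (h3.add h4)
  have hsmall := hvan.eventually (gt_mem_nhds (show (0 : ℝ) < ε / 2 by positivity))
  have hbig1 : ∀ᶠ N : ℕ in atTop, 0 < η * Real.log (Real.log N) - K :=
    (tendsto_atTop_add_const_right _ (-K) (hL.const_mul_atTop hη0)).eventually_gt_atTop 0
  have hbig2 : ∀ᶠ N : ℕ in atTop, c ≤ η * Real.log (Real.log N) :=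
    (hL.const_mul_atTop hη0).eventually_ge_atTop c
  have hall := (choose_A hδ0 hδ1).and (hsmall.and (hbig1.and (hbig2.and
    (eventually_ge_atTop 300))))
  obtain ⟨N₀, hN₀⟩ := eventually_atTop.1 hall
  refine ⟨N₀, fun N hN => ?_⟩
  obtain ⟨⟨A, k, hA16, her, hlo, hhi, hA2⟩, hsm, hpos, hcη, hN300⟩ := hN₀ N hN.le
  have hNr : (0 : ℝ) < N := by exact_mod_cast (by omega : 0 < N)
  set lam := Real.log (Real.log N) with hlam
  have hlam0 : 0 < lam := by
    by_contra hle
    push Not at hle
    have := mul_nonpos_of_nonneg_of_nonpos hη0.le hle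
    linarith
  have hAr : (16 : ℝ) ≤ A := by exact_mod_cast hA16
  have hAN : A < N := by
    have h1 : (A : ℝ) < (A : ℝ) ^ 2 := by nlinarith
    exact_mod_cast lt_of_lt_of_le h1 hA2
  -- first set: X large
  have hmu := hK A hA16
  have hmu2 : mu A ≤ c₁ * lam + K := by
    have := mul_le_mul_of_nonneg_left hhi hc10.le
    linarith
  have hX : (((range N).filter (fun n => (c₁ + η) * lam ≤ X A n)).card : ℝ) ≤
      5 * N / (η * lam - K) ^ 2 := by
    have hd : η * lam - K ≤ (c₁ + η) * lam - mu A := by
      have : (c₁ + η) * lam = c₁ * lam + η * lam := by ring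
      linarith
    have hch := chebN' her (C := (c₁ + η) * lam) (by linarith)
    rw [le_div_iff₀ (by positivity)]
    refine le_trans ?_ hch
    exact mul_le_mul_of_nonneg_left (pow_le_pow_left₀ hpos.le hd 2) (Nat.cast_nonneg _)
  -- second set: tail large
  have hAloglog : lam - Real.log (Real.log A) ≤ δ * lam + 1 := by
    have h1 := loglog_step (a := A) (by omega)
    have h2 : 1 / (Real.log A * A) ≤ 1 := by
      have h3 : 1 ≤ Real.log A := by
        rw [Real.le_log_iff_exp_le (by linarith)]
        have := Real.exp_one_lt_d9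
        linarith
      rw [div_le_one (by positivity)]
      nlinarith
    linarith
  have hηlam : 0 < η * lam := by positivity
  have htail : (((range N).filter (fun n => η * lam ≤ tail A n)).card : ℝ) ≤
      25 * N * (δ * lam + 1) / (η * lam) := by
    rw [le_div_iff₀ hηlam]
    refine (markov (tail A) (tail_nonneg A) N (η * lam)).trans ?_
    refine (sum_tail (by omega) hAN).trans ?_
    exact mul_le_mul_of_nonneg_left hAloglog (by positivity)
  -- third set
  have hprop : (((range N).filter (fun n => η * lam ≤ properSum iz n)).card : ℝ) ≤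
      222 * N / (η * lam) := by
    rw [le_div_iff₀ hηlam]
    refine (markov (properSum iz) (fun n => by unfold properSum; positivity) N (η * lam)).trans ?_
    exact proper_range iz N
  -- the union
  have hsub : (range N).filter (fun n : ℕ => c * Real.log (Real.log n) ≤ totalSum iz n) ⊆
      range (Nat.sqrt N + 1) ∪ ((range N).filter (fun n => (c₁ + η) * lam ≤ X A n) ∪
        ((range N).filter (fun n => η * lam ≤ tail A n) ∪
          (range N).filter (fun n => η * lam ≤ properSum iz n))) := by
    intro n hn
    rw [mem_filter, mem_range] at hn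
    simp only [mem_union, mem_filter, mem_range]
    by_contra hcon
    push Not at hcon
    obtain ⟨h1, h2, h3, h4⟩ := hcon
    have h2 := h2 hn.1
    have h3 := h3 hn.1
    have h4 := h4 hn.1
    have h5 : N < n * n := Nat.sqrt_lt.1 (by omega)
    have hn1 : 1 < n := by
      by_contra hle
      have : n * n ≤ 1 := by
        have : n ≤ 1 := by omega
        nlinarith
      omega
    have h6 : lam - 1 ≤ Real.log (Real.log n) := by
      have hnr : (1 : ℝ) < n := by exact_mod_cast hn1
      have hln : 0 < Real.log n := Real.log_pos hnr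
      have h7 : Real.log N ≤ 2 * Real.log n := by
        have h8 : (N : ℝ) ≤ (n : ℝ) ^ 2 := by
          rw [pow_two]
          exact_mod_cast h5.le
        have h9 := Real.log_le_log hNr h8
        rwa [Real.log_pow, Nat.cast_ofNat] at h9
      have hlN : 0 < Real.log N := Real.log_pos (by exact_mod_cast (by omega : 1 < N))
      have h8 := Real.log_le_log hlN h7
      rw [Real.log_mul two_ne_zero hln.ne'] at h8
      have h9 := Real.log_two_lt_d9
      linarith
    have h7 := mul_le_mul_of_nonneg_left h6 hc0.le
    have h8 := roughSum_upper iz A n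
    have h9 := total_split iz n
    have h10 : c * lam = c₁ * lam + 4 * (η * lam) := by rw [hη]; ring
    have h11 : (c₁ + η) * lam = c₁ * lam + η * lam := by ring
    have h12 : c * (lam - 1) = c * lam - c := by ring
    linarith [hn.2]
  have hcard := card_le_card hsub
  have hcard2 : (((range N).filter (fun n : ℕ => c * Real.log (Real.log n) ≤ totalSum iz n)).card : ℝ) ≤
      (Nat.sqrt N + 1) + (5 * N / (η * lam - K) ^ 2 + (25 * N * (δ * lam + 1) / (η * lam) +
        222 * N / (η * lam))) := by
    have h1 : ((range N).filter (fun n : ℕ => c * Real.log (Real.log n) ≤ totalSum iz n)).card ≤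
        (Nat.sqrt N + 1) + (((range N).filter (fun n => (c₁ + η) * lam ≤ X A n)).card +
        (((range N).filter (fun n => η * lam ≤ tail A n)).card +
          ((range N).filter (fun n => η * lam ≤ properSum iz n)).card)) := by
      refine hcard.trans ((card_union_le _ _).trans ?_)
      rw [card_range]
      refine Nat.add_le_add_left ((card_union_le _ _).trans ?_) _
      exact Nat.add_le_add_left (card_union_le _ _) _
    have h2 : (((range N).filter (fun n : ℕ => c * Real.log (Real.log n) ≤ totalSum iz n)).card : ℝ) ≤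
        (((Nat.sqrt N + 1) + (((range N).filter (fun n => (c₁ + η) * lam ≤ X A n)).card +
        (((range N).filter (fun n => η * lam ≤ tail A n)).card +
          ((range N).filter (fun n => η * lam ≤ properSum iz n)).card)) : ℕ) : ℝ) := by
      exact_mod_cast h1
    push_cast at h2
    linarith
  have hsq : (Nat.sqrt N : ℝ) + 1 ≤ 2 * Real.sqrt N := by
    have h1 : (Nat.sqrt N : ℝ) ≤ Real.sqrt N := Real.nat_sqrt_le_real_sqrt
    have h2 : 1 ≤ Real.sqrt N := by
      rw [Real.one_le_sqrt]
      exact_mod_cast (by omega : 1 ≤ N)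
    linarith
  rw [Real.dist_eq, sub_zero, abs_of_nonneg (by positivity), div_lt_iff₀ hNr]
  have h5 : 2 / Real.sqrt N * N = 2 * Real.sqrt N := by
    have h6 : (N : ℝ) = Real.sqrt N * Real.sqrt N := (Real.mul_self_sqrt hNr.le).symm
    have h7 : 0 < Real.sqrt N := Real.sqrt_pos.2 hNr
    rw [div_mul_eq_mul_div, div_eq_iff h7.ne']
    nlinarith
  have h6 : 25 * N * (δ * lam + 1) / (η * lam) = (25 * δ / η) * N + 25 / (η * lam) * N := by
    field_simp
  have h7 : 247 / (η * lam) * N = 25 / (η * lam) * N + 222 * N / (η * lam) := by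
    ring
  have h8 : 5 / (η * lam - K) ^ 2 * N = 5 * N / (η * lam - K) ^ 2 := by ring
  have h9 : (2 / Real.sqrt N + (5 / (η * lam - K) ^ 2 + 247 / (η * lam))) * N < ε / 2 * N :=
    mul_lt_mul_of_pos_right hsm hNr
  have h10 : (2 / Real.sqrt N + (5 / (η * lam - K) ^ 2 + 247 / (η * lam))) * N =
      2 / Real.sqrt N * N + (5 / (η * lam - K) ^ 2 * N + 247 / (η * lam) * N) := by ring
  have h11 := mul_le_mul_of_nonneg_right hδ2 hNr.le
  have h12 : 0 < ε * N := by positivity
  rw [h10, h5, h7, h8] at h9
  rw [h6] at hcard2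
  linarith

end Pool.Agent.TH437.GR
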