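import Pool.Agent.TH437.GR.Crt
import Pool.Agent.Helper256.KM.Mertens

/-!
# The variance is bounded and the mean tends to infinity
-/

set_option autoImplicit false

namespace Pool.Agent.TH437.GR

open Finset

theorem sym_sum (g : ℕ → ℕ → ℝ) (hg : ∀ a b, g a b = g b a) (A : ℕ) :
    ∑ a ∈ Icc 1 A, ∑ b ∈ Icc 1 A, g a b =
      ∑ a ∈ Icc 1 A, g a a + 2 * ∑ a ∈ Icc 1 A, ∑ b ∈ Ioc a A, g a b := by
  induction A with
  | zero => simp
  | succ A ih =>
    rw [sum_Icc_succ_top (by omega : 1 ≤ A + 1), sum_Icc_succ_top (by omega : 1 ≤ A + 1),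
      sum_Icc_succ_top (by omega : 1 ≤ A + 1), sum_Icc_succ_top (by omega : 1 ≤ A + 1)]
    have h1 : ∑ a ∈ Icc 1 A, ∑ b ∈ Icc 1 (A + 1), g a b =
        ∑ a ∈ Icc 1 A, ∑ b ∈ Icc 1 A, g a b + ∑ a ∈ Icc 1 A, g a (A + 1) := by
      rw [← sum_add_distrib]
      refine sum_congr rfl fun a _ => ?_
      rw [sum_Icc_succ_top (by omega : 1 ≤ A + 1)]
    have h2 : ∑ a ∈ Icc 1 A, ∑ b ∈ Ioc a (A + 1), g a b =
        ∑ a ∈ Icc 1 A, ∑ b ∈ Ioc a A, g a b + ∑ a ∈ Icc 1 A, g a (A + 1) := by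
      rw [← sum_add_distrib]
      refine sum_congr rfl fun a ha => ?_
      rw [mem_Icc] at ha
      rw [sum_Ioc_succ_top ha.2]
    have h3 : ∑ b ∈ Icc 1 A, g (A + 1) b = ∑ a ∈ Icc 1 A, g a (A + 1) :=
      sum_congr rfl fun a _ => hg _ _
    rw [h1, h2, h3, ih, Finset.Ioc_self, sum_empty]
    ring

theorem abel (v h : ℕ → ℝ) (hv : ∀ d, 0 ≤ v d) (hv' : ∀ d, v (d + 1) ≤ v d)
    (hh : ∀ D, ∑ d ∈ Ioc 0 D, h d ≤ 0) (N : ℕ) :
    ∑ d ∈ Ioc 0 N, v d * h d ≤ 0 := by
  have key : ∑ d ∈ Ioc 0 N, v d * h d ≤ v N * ∑ d ∈ Ioc 0 N, h d := by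
    induction N with
    | zero => simp
    | succ N ih =>
      rw [sum_Ioc_succ_top (Nat.zero_le _), sum_Ioc_succ_top (Nat.zero_le _), mul_add]
      have h1 : v N * ∑ d ∈ Ioc 0 N, h d ≤ v (N + 1) * ∑ d ∈ Ioc 0 N, h d :=
        mul_le_mul_of_nonpos_right (hv' N) (hh N)
      linarith
  exact key.trans (mul_nonpos_of_nonneg_of_nonpos (hv N) (hh N))

theorem P_nonneg (a : ℕ) : 0 ≤ P a := by
  unfold P
  refine prod_nonneg fun p hp => ?_
  have h1 : (1 : ℝ) ≤ p := by exact_mod_cast (Nat.prime_of_mem_primesBelow hp).one_le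
  rw [sub_nonneg, div_le_one (by linarith)]
  exact h1

theorem P_succ_le (a : ℕ) : P (a + 1) ≤ P a := by
  have h0 := P_nonneg a
  unfold P at h0 ⊢
  rw [Nat.primesBelow_succ (a + 1)]
  split_ifs with h
  · rw [prod_insert (by simp [Nat.mem_primesBelow])]
    have h1 : (1 : ℝ) - 1 / ((a + 1 : ℕ) : ℝ) ≤ 1 := by
      have : (0 : ℝ) ≤ 1 / ((a + 1 : ℕ) : ℝ) := by positivity
      linarith
    calc _ ≤ 1 * ∏ p ∈ Nat.primesBelow (a + 1), (1 - 1 / (p : ℝ)) :=
          mul_le_mul_of_nonneg_right h1 h0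
      _ = _ := one_mul _
  · exact le_refl _

/-- the weights -/
noncomputable def w (a : ℕ) : ℝ := P a / a

theorem w_nonneg (a : ℕ) : 0 ≤ w a := div_nonneg (P_nonneg a) (Nat.cast_nonneg _)

theorem w_succ_le {a : ℕ} (ha : 1 ≤ a) : w (a + 1) ≤ w a := by
  unfold w
  have h1 : (1 : ℝ) ≤ a := by exact_mod_cast ha
  refine div_le_div₀ (P_nonneg a) (P_succ_le a) (by linarith) ?_
  push_cast
  linarith

theorem F_nonneg (A a n : ℕ) : 0 ≤ F A a n := by
  unfold F ind dl
  refine prod_nonneg fun p _ => ?_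
  split_ifs <;> norm_num

theorem F_le_one (A a n : ℕ) : F A a n ≤ 1 := by
  unfold F ind dl
  refine prod_le_one (fun p _ => ?_) (fun p _ => ?_)
  · split_ifs <;> norm_num
  · split_ifs <;> norm_num

/-- the sum over the small terms -/
noncomputable def X (A n : ℕ) : ℝ := ∑ a ∈ Icc 1 A, F A a n / a

noncomputable def mu (A : ℕ) : ℝ := ∑ a ∈ Icc 1 A, w a

theorem mu_nonneg (A : ℕ) : 0 ≤ mu A := sum_nonneg fun a _ => w_nonneg a

theorem mean_X (A : ℕ) : ∑ n ∈ range (Q A), X A n = Q A * mu A := by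
  unfold X mu
  rw [sum_comm, mul_sum]
  refine sum_congr rfl fun a ha => ?_
  rw [mem_Icc] at ha
  rw [← sum_div, mean1 ha.2]
  unfold w
  ring

theorem sq_X (A : ℕ) : ∑ n ∈ range (Q A), (X A n) ^ 2 ≤ Q A * (2 + mu A ^ 2) := by
  have hQ : (0 : ℝ) < Q A := by exact_mod_cast Q_pos A
  set g : ℕ → ℕ → ℝ := fun a b => ∑ n ∈ range (Q A), (F A a n / a) * (F A b n / b) with hg
  have h1 : ∑ n ∈ range (Q A), (X A n) ^ 2 = ∑ a ∈ Icc 1 A, ∑ b ∈ Icc 1 A, g a b := by
    simp only [hg]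
    rw [sum_congr rfl fun a _ => sum_comm, sum_comm]
    refine sum_congr rfl fun n _ => ?_
    unfold X
    rw [pow_two, Finset.sum_mul_sum]
  have hsym : ∀ a b, g a b = g b a := by
    intro a b
    simp only [hg]
    exact sum_congr rfl fun n _ => mul_comm _ _
  rw [h1, sym_sum g hsym A]
  -- the diagonal
  have h2 : ∑ a ∈ Icc 1 A, g a a ≤ Q A * 2 := by
    have h3 : ∀ a ∈ Icc 1 A, g a a ≤ Q A * ((a : ℝ) ^ 2)⁻¹ := by
      intro a ha
      simp only [hg]
      have h4 : ∀ n ∈ range (Q A), F A a n / a * (F A a n / a) ≤ ((a : ℝ) ^ 2)⁻¹ := by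
        intro n _
        have h5 : F A a n * F A a n ≤ 1 := by
          have := mul_le_one₀ (F_le_one A a n) (F_nonneg A a n) (F_le_one A a n)
          exact this
        calc F A a n / a * (F A a n / a) = (F A a n * F A a n) * ((a : ℝ) ^ 2)⁻¹ := by
              rw [pow_two, mul_inv]; ring
          _ ≤ 1 * ((a : ℝ) ^ 2)⁻¹ := mul_le_mul_of_nonneg_right h5 (by positivity)
          _ = _ := one_mul _
      refine (sum_le_sum h4).trans ?_
      rw [sum_const, card_range, nsmul_eq_mul]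
    refine (sum_le_sum h3).trans ?_
    rw [← mul_sum]
    refine mul_le_mul_of_nonneg_left ?_ hQ.le
    have h5 := sum_Ioo_inv_sq_le (α := ℝ) 0 (A + 1)
    have h6 : Ioo 0 (A + 1) = Icc 1 A := by
      ext x
      simp only [mem_Ioo, mem_Icc]
      omega
    rw [h6] at h5
    norm_num at h5
    exact h5
  -- the off-diagonal part
  have h3 : ∀ a ∈ Icc 1 A, ∑ b ∈ Ioc a A, g a b ≤ Q A * ∑ b ∈ Ioc a A, w a * w b := by
    intro a ha
    rw [mem_Icc] at ha
    have h4 : ∀ b ∈ Ioc a A, g a b = Q A * (w a * w b * SS a (b - a)) := by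
      intro b hb
      rw [mem_Ioc] at hb
      simp only [hg]
      have h5 : ∀ n ∈ range (Q A), F A a n / a * (F A b n / b) =
          F A a n * F A b n * (1 / (a * b) : ℝ) := by
        intro n _
        rw [one_div, mul_inv]
        ring
      rw [sum_congr rfl h5, ← sum_mul, mean2 hb.1 hb.2]
      unfold w
      rw [one_div, mul_inv]
      ring
    rw [sum_congr rfl h4, ← mul_sum]
    refine mul_le_mul_of_nonneg_left ?_ hQ.le
    have h5 : ∀ f : ℕ → ℝ, ∑ b ∈ Ioc a A, f b = ∑ d ∈ Ioc 0 (A - a), f (a + d) := by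
      intro f
      refine sum_nbij' (fun b => b - a) (fun d => a + d) ?_ ?_ ?_ ?_ ?_
      · intro b hb
        rw [mem_Ioc] at hb ⊢
        omega
      · intro d hd
        rw [mem_Ioc] at hd ⊢
        omega
      · intro b hb
        rw [mem_Ioc] at hb
        show a + (b - a) = b
        omega
      · intro d _
        show a + d - a = d
        omega
      · intro b hb
        rw [mem_Ioc] at hb
        congr 1
        omega
    rw [h5, h5]
    have h6 := abel (fun d => w (a + d)) (fun d => SS a d - 1) (fun d => w_nonneg _)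
      (fun d => w_succ_le (a := a + d) (by omega)) (by
        intro D
        rw [sum_sub_distrib]
        have := sum_SS_le a D
        simp
        exact this) (A - a)
    have h7 : ∑ d ∈ Ioc 0 (A - a), w a * w (a + d) * SS a (a + d - a) =
        ∑ d ∈ Ioc 0 (A - a), w a * w (a + d) + w a * ∑ d ∈ Ioc 0 (A - a),
          w (a + d) * (SS a d - 1) := by
      rw [mul_sum, ← sum_add_distrib]
      refine sum_congr rfl fun d _ => ?_
      rw [Nat.add_sub_cancel_left]
      ring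
    rw [h7]
    have := mul_nonpos_of_nonneg_of_nonpos (w_nonneg a) h6
    linarith
  have h4 : (mu A) ^ 2 = ∑ a ∈ Icc 1 A, w a * w a + 2 * ∑ a ∈ Icc 1 A, ∑ b ∈ Ioc a A, w a * w b := by
    rw [← sym_sum (fun a b => w a * w b) (fun a b => mul_comm _ _) A]
    unfold mu
    rw [pow_two, Finset.sum_mul_sum]
  have h5 : 0 ≤ ∑ a ∈ Icc 1 A, w a * w a := sum_nonneg fun a _ => mul_self_nonneg _
  have h6 := sum_le_sum h3
  rw [← mul_sum] at h6
  rw [h4]
  nlinarith [mul_nonneg hQ.le h5]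

theorem chebyshev {A : ℕ} {C : ℝ} (hC : C < mu A) :
    (((range (Q A)).filter (fun n => X A n ≤ C)).card : ℝ) * (mu A - C) ^ 2 ≤ 2 * Q A := by
  have h1 : ∑ n ∈ range (Q A), (X A n - mu A) ^ 2 ≤ 2 * Q A := by
    have h2 : ∀ n, (X A n - mu A) ^ 2 = (X A n) ^ 2 - 2 * mu A * X A n + mu A ^ 2 := by
      intro n; ring
    simp only [h2]
    rw [sum_add_distrib, sum_sub_distrib, ← mul_sum, mean_X, sum_const, card_range, nsmul_eq_mul]
    have := sq_X A
    nlinarith
  refine le_trans ?_ h1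
  calc (((range (Q A)).filter (fun n => X A n ≤ C)).card : ℝ) * (mu A - C) ^ 2
      = ∑ n ∈ (range (Q A)).filter (fun n => X A n ≤ C), (mu A - C) ^ 2 := by
        rw [sum_const, nsmul_eq_mul]
    _ ≤ ∑ n ∈ (range (Q A)).filter (fun n => X A n ≤ C), (X A n - mu A) ^ 2 := by
        refine sum_le_sum fun n hn => ?_
        rw [mem_filter] at hn
        have h2 : 0 ≤ mu A - C := by linarith
        have h3 : mu A - C ≤ mu A - X A n := by linarith [hn.2]
        nlinarith
    _ ≤ ∑ n ∈ range (Q A), (X A n - mu A) ^ 2 :=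
        sum_le_sum_of_subset_of_nonneg (filter_subset _ _) fun _ _ _ => sq_nonneg _

theorem X_mod (A n : ℕ) : X A (n % Q A) = X A n := by
  unfold X F
  refine sum_congr rfl fun a _ => ?_
  congr 1
  refine prod_congr rfl fun p hp => ?_
  have h : p ∣ Q A := dvd_prod_of_mem (fun p => p) hp
  rw [Nat.mod_mod_of_dvd n h]

theorem count_le (A N : ℕ) (C : ℝ) :
    ((range N).filter (fun n => X A n ≤ C)).card ≤
      (N / Q A + 1) * ((range (Q A)).filter (fun n => X A n ≤ C)).card := by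
  rw [← card_range (N / Q A + 1), ← card_product]
  refine card_le_card_of_injOn (fun n => (n / Q A, n % Q A)) ?_ ?_
  · intro n hn
    rw [mem_coe, mem_filter, mem_range] at hn
    rw [mem_coe, mem_product, mem_filter, mem_range, mem_range]
    refine ⟨?_, Nat.mod_lt _ (Q_pos A), ?_⟩
    · exact Nat.lt_succ_of_le (Nat.div_le_div_right hn.1.le)
    · rw [X_mod]
      exact hn.2
  · intro n _ m _ h
    simp only [Prod.mk.injEq] at h
    rw [← Nat.div_add_mod n (Q A), ← Nat.div_add_mod m (Q A), h.1, h.2]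

theorem count_bound {A N : ℕ} {C : ℝ} (hC : C < mu A) :
    (((range N).filter (fun n => X A n ≤ C)).card : ℝ) * (mu A - C) ^ 2 ≤ 2 * (N + Q A) := by
  have hQ : (0 : ℝ) < Q A := by exact_mod_cast Q_pos A
  have h1 : (((range N).filter (fun n => X A n ≤ C)).card : ℝ) ≤
      ((N / Q A : ℕ) + 1) * (((range (Q A)).filter (fun n => X A n ≤ C)).card : ℝ) := by
    exact_mod_cast count_le A N C
  have h2 := chebyshev hC
  have h3 : ((N / Q A : ℕ) : ℝ) ≤ N / Q A := Nat.cast_div_le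
  calc (((range N).filter (fun n => X A n ≤ C)).card : ℝ) * (mu A - C) ^ 2
      ≤ (((N / Q A : ℕ) + 1) * (((range (Q A)).filter (fun n => X A n ≤ C)).card : ℝ)) *
        (mu A - C) ^ 2 := mul_le_mul_of_nonneg_right h1 (sq_nonneg _)
    _ = ((N / Q A : ℕ) + 1) * ((((range (Q A)).filter (fun n => X A n ≤ C)).card : ℝ) *
        (mu A - C) ^ 2) := by ring
    _ ≤ (N / Q A + 1) * (2 * Q A) := by
        refine mul_le_mul (by linarith) h2 (by positivity) (by positivity)
    _ = 2 * (N + Q A) := by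
        field_simp

end Pool.Agent.TH437.GR
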