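import Pool.Agent.TH437.GR.Brun

/-!
# The variance over an interval
-/

set_option autoImplicit false

namespace Pool.Agent.TH437.GR

open Finset

theorem ind_nonneg (a p r : ℕ) : 0 ≤ ind a p r := by
  unfold ind dl
  split_ifs <;> norm_num

theorem ind_le_one (a p r : ℕ) : ind a p r ≤ 1 := by
  unfold ind dl
  split_ifs <;> norm_num

theorem nu1 (a : ℕ) {p : ℕ} (hp : p.Prime) : (p : ℝ) - ∑ r ∈ range p, ind a p r ≤ 2 := by
  have hp0 : (0 : ℝ) < p := by exact_mod_cast hp.pos
  rw [avg1 hp]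
  unfold e1
  split_ifs
  · have : (p : ℝ) * (1 - 1 / p) = p - 1 := by
      field_simp
    rw [this]
    linarith
  · linarith

theorem nu2 (a b : ℕ) {p : ℕ} (hp : p.Prime) :
    (p : ℝ) - ∑ r ∈ range p, ind a p r * ind b p r ≤ 2 := by
  have h1 : ∀ r, 1 - dl (a % p) r - dl (b % p) r ≤ ind a p r * ind b p r := by
    intro r
    unfold ind dl
    split_ifs <;> norm_num
  have h2 := sum_le_sum (s := range p) (fun r _ => h1 r)
  rw [sum_sub_distrib, sum_sub_distrib, sum_dl (Nat.mod_lt _ hp.pos),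
    sum_dl (Nat.mod_lt _ hp.pos)] at h2
  simp at h2
  linarith

/-- the error term -/
noncomputable def er (A k N : ℕ) : ℝ :=
  N * Real.exp (-(2 * (2 * k + 1 : ℕ)) + Real.exp 2 * ∑ p ∈ Nat.primesBelow (A + 1), 2 / (p : ℝ)) +
      Real.exp 2 * (A + 1) ^ (2 * k + 1)

theorem er_nonneg (A k N : ℕ) : 0 ≤ er A k N := by
  unfold er
  positivity

theorem single {a A : ℕ} (h : a ≤ A) (N k : ℕ) :
    |∑ n ∈ range N, F A a n - N * P a| ≤ er A k N := by
  have h1 := brun A (ind a) (ind_nonneg a) (ind_le_one a)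
    (fun p hp => nu1 a (Nat.prime_of_mem_primesBelow hp)) N k
  have h2 : ∏ p ∈ Nat.primesBelow (A + 1), ((∑ r ∈ range p, ind a p r) / p) = P a := by
    have h3 : ∏ p ∈ Nat.primesBelow (A + 1), ((∑ r ∈ range p, ind a p r) / (p : ℝ)) =
        ∏ p ∈ Nat.primesBelow (A + 1), e1 a p := by
      refine prod_congr rfl fun p hp => ?_
      have hp' := Nat.prime_of_mem_primesBelow hp
      have hp0 : (p : ℝ) ≠ 0 := by exact_mod_cast hp'.ne_zero
      rw [avg1 hp']
      field_simp
    rw [h3]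
    unfold e1 P
    rw [← prod_filter, filt h]
  rw [h2] at h1
  exact h1

theorem double {a b A : ℕ} (hab : a < b) (h : b ≤ A) (N k : ℕ) :
    |∑ n ∈ range N, F A a n * F A b n - N * (P a * P b * SS a (b - a))| ≤ er A k N := by
  have h1 := brun A (fun p r => ind a p r * ind b p r)
    (fun p r => mul_nonneg (ind_nonneg a p r) (ind_nonneg b p r))
    (fun p r => mul_le_one₀ (ind_le_one a p r) (ind_nonneg b p r) (ind_le_one b p r))
    (fun p hp => nu2 a b (Nat.prime_of_mem_primesBelow hp)) N k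
  have h2 : ∏ p ∈ Nat.primesBelow (A + 1), ((∑ r ∈ range p, ind a p r * ind b p r) / p) =
      P a * P b * SS a (b - a) := by
    have h3 : ∏ p ∈ Nat.primesBelow (A + 1), ((∑ r ∈ range p, ind a p r * ind b p r) / (p : ℝ)) =
        ∏ p ∈ Nat.primesBelow (A + 1), (e1 a p * e1 b p *
          (if p ≤ a then (al p + be p * (if p ∣ b - a then 1 else 0)) else 1)) := by
      refine prod_congr rfl fun p hp => ?_
      have hp' := Nat.prime_of_mem_primesBelow hp
      have hp0 : (p : ℝ) ≠ 0 := by exact_mod_cast hp'.ne_zero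
      rw [avg2 hab hp']
      field_simp
    rw [h3, prod_mul_distrib, prod_mul_distrib]
    unfold e1 P SS
    rw [← prod_filter, ← prod_filter, ← prod_filter, filt h, filt (hab.le.trans h)]
  rw [h2] at h1
  have h4 : ∀ n, F A a n * F A b n =
      ∏ p ∈ Nat.primesBelow (A + 1), ind a p (n % p) * ind b p (n % p) := by
    intro n
    unfold F
    rw [prod_mul_distrib]
  simp only [h4]
  exact h1

/-- the harmonic sum -/
noncomputable def LL (A : ℕ) : ℝ := ∑ a ∈ Icc 1 A, 1 / (a : ℝ)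

theorem LL_nonneg (A : ℕ) : 0 ≤ LL A := sum_nonneg fun a _ => by positivity

theorem meanN (A k N : ℕ) : N * mu A - er A k N * LL A ≤ ∑ n ∈ range N, X A n := by
  unfold X mu LL
  rw [sum_comm, mul_sum, mul_sum, ← sum_sub_distrib]
  refine sum_le_sum fun a ha => ?_
  rw [mem_Icc] at ha
  have h1 := (abs_le.1 (single ha.2 N k)).1
  have ha0 : (0 : ℝ) < a := by exact_mod_cast ha.1
  rw [← sum_div, le_div_iff₀ ha0]
  unfold w
  have : (N * (P a / a) - er A k N * (1 / a)) * a = N * P a - er A k N := by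
    field_simp
  rw [this]
  linarith

theorem offdiag {a A : ℕ} (ha : 1 ≤ a) :
    ∑ b ∈ Ioc a A, w a * w b * SS a (b - a) ≤ ∑ b ∈ Ioc a A, w a * w b := by
  have h5 : ∀ f : ℕ → ℝ, ∑ b ∈ Ioc a A, f b = ∑ d ∈ Ioc 0 (A - a), f (a + d) := by
    intro f
    refine sum_nbij' (fun b => b - a) (fun d => a + d) ?_ ?_ ?_ ?_ ?_
    · intro b hb
      rw [mem_Ioc] at hb ⊢
      omega
    · intro d hd
      rw [mem_Ioc] at hd ⊢
      omega
    · intro b hb
      rw [mem_Ioc] at hb
      show a + (b - a) = b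
      omega
    · intro d _
      show a + d - a = d
      omega
    · intro b hb
      rw [mem_Ioc] at hb
      congr 1
      omega
  rw [h5, h5]
  have h6 := abel (fun d => w (a + d)) (fun d => SS a d - 1) (fun d => w_nonneg _)
    (fun d => w_succ_le (a := a + d) (by omega)) (by
      intro D
      rw [sum_sub_distrib]
      have := sum_SS_le a D
      simp
      exact this) (A - a)
  have h7 : ∑ d ∈ Ioc 0 (A - a), w a * w (a + d) * SS a (a + d - a) =
      ∑ d ∈ Ioc 0 (A - a), w a * w (a + d) + w a * ∑ d ∈ Ioc 0 (A - a),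
        w (a + d) * (SS a d - 1) := by
    rw [mul_sum, ← sum_add_distrib]
    refine sum_congr rfl fun d _ => ?_
    rw [Nat.add_sub_cancel_left]
    ring
  rw [h7]
  have := mul_nonpos_of_nonneg_of_nonpos (w_nonneg a) h6
  linarith

theorem sqN (A k N : ℕ) :
    ∑ n ∈ range N, (X A n) ^ 2 ≤ N * (2 + mu A ^ 2) + er A k N * LL A ^ 2 := by
  have hN : (0 : ℝ) ≤ N := Nat.cast_nonneg _
  set g : ℕ → ℕ → ℝ := fun a b => ∑ n ∈ range N, (F A a n / a) * (F A b n / b) with hg
  have h1 : ∑ n ∈ range N, (X A n) ^ 2 = ∑ a ∈ Icc 1 A, ∑ b ∈ Icc 1 A, g a b := by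
    simp only [hg]
    rw [sum_congr rfl fun a _ => sum_comm, sum_comm]
    refine sum_congr rfl fun n _ => ?_
    unfold X
    rw [pow_two, Finset.sum_mul_sum]
  have hsym : ∀ a b, g a b = g b a := by
    intro a b
    simp only [hg]
    exact sum_congr rfl fun n _ => mul_comm _ _
  rw [h1, sym_sum g hsym A]
  -- the diagonal
  have h2 : ∑ a ∈ Icc 1 A, g a a ≤ N * 2 := by
    have h3 : ∀ a ∈ Icc 1 A, g a a ≤ N * ((a : ℝ) ^ 2)⁻¹ := by
      intro a ha
      simp only [hg]
      have h4 : ∀ n ∈ range N, F A a n / a * (F A a n / a) ≤ ((a : ℝ) ^ 2)⁻¹ := by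
        intro n _
        have h5 : F A a n * F A a n ≤ 1 :=
          mul_le_one₀ (F_le_one A a n) (F_nonneg A a n) (F_le_one A a n)
        calc F A a n / a * (F A a n / a) = (F A a n * F A a n) * ((a : ℝ) ^ 2)⁻¹ := by
              rw [pow_two, mul_inv]; ring
          _ ≤ 1 * ((a : ℝ) ^ 2)⁻¹ := mul_le_mul_of_nonneg_right h5 (by positivity)
          _ = _ := one_mul _
      refine (sum_le_sum h4).trans ?_
      rw [sum_const, card_range, nsmul_eq_mul]
    refine (sum_le_sum h3).trans ?_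
    rw [← mul_sum]
    refine mul_le_mul_of_nonneg_left ?_ hN
    have h5 := sum_Ioo_inv_sq_le (α := ℝ) 0 (A + 1)
    have h6 : Ioo 0 (A + 1) = Icc 1 A := by
      ext x
      simp only [mem_Ioo, mem_Icc]
      omega
    rw [h6] at h5
    norm_num at h5
    exact h5
  -- the off-diagonal part
  have h3 : ∀ a ∈ Icc 1 A, ∑ b ∈ Ioc a A, g a b ≤
      N * ∑ b ∈ Ioc a A, w a * w b + er A k N * ∑ b ∈ Ioc a A, (1 / (a : ℝ)) * (1 / b) := by
    intro a ha
    rw [mem_Icc] at ha
    have ha0 : (0 : ℝ) < a := by exact_mod_cast ha.1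
    have h4 : ∀ b ∈ Ioc a A, g a b ≤ N * (w a * w b * SS a (b - a)) +
        er A k N * ((1 / (a : ℝ)) * (1 / b)) := by
      intro b hb
      rw [mem_Ioc] at hb
      have hb0 : (0 : ℝ) < b := by exact_mod_cast (by omega : 0 < b)
      simp only [hg]
      have h5 : ∀ n ∈ range N, F A a n / a * (F A b n / b) =
          F A a n * F A b n * ((1 / (a : ℝ)) * (1 / b)) := by
        intro n _
        ring
      rw [sum_congr rfl h5, ← sum_mul]
      have h6 := (abs_le.1 (double hb.1 hb.2 N k)).2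
      have h7 : (0 : ℝ) ≤ (1 / (a : ℝ)) * (1 / b) := by positivity
      have h8 : ∑ n ∈ range N, F A a n * F A b n ≤
          N * (P a * P b * SS a (b - a)) + er A k N := by linarith
      have h9 := mul_le_mul_of_nonneg_right h8 h7
      refine h9.trans (le_of_eq ?_)
      unfold w
      ring
    refine (sum_le_sum h4).trans ?_
    rw [sum_add_distrib, ← mul_sum, ← mul_sum]
    have := mul_le_mul_of_nonneg_left (offdiag (A := A) ha.1) hN
    linarith
  have h4 : (mu A) ^ 2 = ∑ a ∈ Icc 1 A, w a * w a + 2 * ∑ a ∈ Icc 1 A, ∑ b ∈ Ioc a A, w a * w b := by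
    rw [← sym_sum (fun a b => w a * w b) (fun a b => mul_comm _ _) A]
    unfold mu
    rw [pow_two, Finset.sum_mul_sum]
  have h4' : (LL A) ^ 2 = ∑ a ∈ Icc 1 A, (1 / (a : ℝ)) * (1 / a) +
      2 * ∑ a ∈ Icc 1 A, ∑ b ∈ Ioc a A, (1 / (a : ℝ)) * (1 / b) := by
    rw [← sym_sum (fun a b => (1 / (a : ℝ)) * (1 / b)) (fun a b => mul_comm _ _) A]
    unfold LL
    rw [pow_two, Finset.sum_mul_sum]
  have h5 : 0 ≤ ∑ a ∈ Icc 1 A, w a * w a := sum_nonneg fun a _ => mul_self_nonneg _
  have h5' : 0 ≤ ∑ a ∈ Icc 1 A, (1 / (a : ℝ)) * (1 / a) := sum_nonneg fun a _ => mul_self_nonneg _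
  have h6 := sum_le_sum h3
  rw [sum_add_distrib, ← mul_sum, ← mul_sum] at h6
  rw [h4, h4']
  have h7 := mul_nonneg hN h5
  have h8 := mul_nonneg (er_nonneg A k N) h5'
  nlinarith

theorem mu_le_LL (A : ℕ) : mu A ≤ LL A := by
  unfold mu LL w
  refine sum_le_sum fun a _ => ?_
  refine div_le_div_of_nonneg_right ?_ (Nat.cast_nonneg _)
  unfold P
  refine prod_le_one (fun p hp => ?_) (fun p hp => ?_)
  · have h1 : (1 : ℝ) ≤ p := by exact_mod_cast (Nat.prime_of_mem_primesBelow hp).one_le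
    rw [sub_nonneg, div_le_one (by linarith)]
    exact h1
  · have : (0 : ℝ) ≤ 1 / (p : ℝ) := by positivity
    linarith

theorem varN {A k N : ℕ} (h : er A k N * LL A ^ 2 ≤ N) :
    ∑ n ∈ range N, (X A n - mu A) ^ 2 ≤ 5 * N := by
  have h2 : ∀ n, (X A n - mu A) ^ 2 = (X A n) ^ 2 - 2 * mu A * X A n + mu A ^ 2 := by
    intro n; ring
  simp only [h2]
  rw [sum_add_distrib, sum_sub_distrib, ← mul_sum, sum_const, card_range, nsmul_eq_mul]
  have h3 := sqN A k N
  have h4 := mul_le_mul_of_nonneg_left (meanN A k N) (mul_nonneg zero_le_two (mu_nonneg A))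
  have h5 : mu A * (er A k N * LL A) ≤ N := by
    have h6 : mu A * (er A k N * LL A) ≤ LL A * (er A k N * LL A) :=
      mul_le_mul_of_nonneg_right (mu_le_LL A) (mul_nonneg (er_nonneg A k N) (LL_nonneg A))
    have h7 : LL A * (er A k N * LL A) = er A k N * LL A ^ 2 := by ring
    linarith
  nlinarith

theorem chebN {A k N : ℕ} (h : er A k N * LL A ^ 2 ≤ N) {C : ℝ} (hC : C < mu A) :
    (((range N).filter (fun n => X A n ≤ C)).card : ℝ) * (mu A - C) ^ 2 ≤ 5 * N := by
  refine le_trans ?_ (varN h)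
  calc (((range N).filter (fun n => X A n ≤ C)).card : ℝ) * (mu A - C) ^ 2
      = ∑ n ∈ (range N).filter (fun n => X A n ≤ C), (mu A - C) ^ 2 := by
        rw [sum_const, nsmul_eq_mul]
    _ ≤ ∑ n ∈ (range N).filter (fun n => X A n ≤ C), (X A n - mu A) ^ 2 := by
        refine sum_le_sum fun n hn => ?_
        rw [mem_filter] at hn
        have h2 : 0 ≤ mu A - C := by linarith
        have h3 : mu A - C ≤ mu A - X A n := by linarith [hn.2]
        nlinarith
    _ ≤ ∑ n ∈ range N, (X A n - mu A) ^ 2 :=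
        sum_le_sum_of_subset_of_nonneg (filter_subset _ _) fun _ _ _ => sq_nonneg _

theorem chebN' {A k N : ℕ} (h : er A k N * LL A ^ 2 ≤ N) {C : ℝ} (hC : mu A < C) :
    (((range N).filter (fun n => C ≤ X A n)).card : ℝ) * (C - mu A) ^ 2 ≤ 5 * N := by
  refine le_trans ?_ (varN h)
  calc (((range N).filter (fun n => C ≤ X A n)).card : ℝ) * (C - mu A) ^ 2
      = ∑ n ∈ (range N).filter (fun n => C ≤ X A n), (C - mu A) ^ 2 := by
        rw [sum_const, nsmul_eq_mul]
    _ ≤ ∑ n ∈ (range N).filter (fun n => C ≤ X A n), (X A n - mu A) ^ 2 := by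
        refine sum_le_sum fun n hn => ?_
        rw [mem_filter] at hn
        have h2 : 0 ≤ C - mu A := by linarith
        have h3 : C - mu A ≤ X A n - mu A := by linarith [hn.2]
        nlinarith
    _ ≤ ∑ n ∈ range N, (X A n - mu A) ^ 2 :=
        sum_le_sum_of_subset_of_nonneg (filter_subset _ _) fun _ _ _ => sq_nonneg _

end Pool.Agent.TH437.GR
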